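import Pool.Agent.Y37.GF.Base

/-! Task `T_ev` of project GF: the values of the four series. -/

set_option autoImplicit false

open PowerSeries Filter Topology Set

namespace Pool.Agent.Y37.GF

open Pool.Agent.Y113

theorem gz_bound (g : ℕ) {z : ℝ} (hz : |z| ≤ 1 / ((g : ℝ) + 8)) : |(g : ℝ) * z| < 1 := by
  have h : (0 : ℝ) < (g : ℝ) + 8 := by positivity
  rw [abs_mul, Nat.abs_cast]
  calc (g : ℝ) * |z| ≤ g * (1 / ((g : ℝ) + 8)) := by gcongr
    _ < 1 := by rw [mul_one_div, div_lt_one h]; linarith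

theorem gz_pos (g : ℕ) {z : ℝ} (hz : |z| ≤ 1 / ((g : ℝ) + 8)) : 0 < 1 - (g : ℝ) * z := by
  have := (abs_lt.1 (gz_bound g hz)).2; linarith

theorem coeff_sh_nonneg (g m : ℕ) : 0 ≤ coeff m (sh g) := by
  simp only [sh, coeff_mk]; split_ifs <;> positivity

theorem SR_sh (g : ℕ) : SR (1 / ((g : ℝ) + 8)) (sh g) := by
  have h8 : (0 : ℝ) < (g : ℝ) + 8 := by positivity
  refine SR.of_bound (A := 1) (B := (g : ℝ) + 1) (by positivity) (by positivity) ?_ fun m => ?_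
  · rw [mul_one_div, div_lt_one h8]; linarith
  · rcases m with _ | m
    · simp [sh]
    · simp only [sh, coeff_mk, Nat.add_one_ne_zero, if_false, Nat.add_sub_cancel]
      push_cast
      rw [abs_of_nonneg (by positivity), one_mul, pow_succ]
      calc (g : ℝ) ^ m ≤ ((g : ℝ) + 1) ^ m * 1 := by rw [mul_one]; gcongr; linarith
        _ ≤ ((g : ℝ) + 1) ^ m * ((g : ℝ) + 1) := by
          gcongr; linarith [(by positivity : (0 : ℝ) ≤ (g : ℝ))]

theorem SR_lg (g : ℕ) : SR (1 / ((g : ℝ) + 8)) (lg g) := by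
  have h8 : (0 : ℝ) < (g : ℝ) + 8 := by positivity
  refine SR.of_bound (A := 1) (B := (g : ℝ)) (by positivity) (by positivity) ?_ fun m => ?_
  · rw [mul_one_div, div_lt_one h8]; linarith
  · simp only [lg, coeff_mk]
    push_cast
    rw [abs_neg, abs_div, Nat.abs_cast, abs_of_nonneg (by positivity), one_mul]
    rcases m with _ | m
    · simp
    · apply div_le_self (by positivity)
      push_cast
      linarith [(by positivity : (0 : ℝ) ≤ (m : ℝ))]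

theorem E_sh (g : ℕ) {z : ℝ} (hz : |z| ≤ 1 / ((g : ℝ) + 8)) : E (sh g) z = z / (1 - g * z) := by
  have h1 := congrArg (fun f => E f z) (sh_mul g)
  have h2 : (1 - (g : ℚ⟦X⟧) * X) = ((1 - Polynomial.C (g : ℚ) * Polynomial.X : Polynomial ℚ) : ℚ⟦X⟧) := by
    have h : ∀ P : Polynomial ℚ, (P : ℚ⟦X⟧) = Polynomial.coeToPowerSeries.ringHom P := fun P => rfl
    rw [h, map_sub, map_one, map_mul, ← h, ← h, Polynomial.coe_X, Polynomial.coe_C, map_natCast]
  rw [h2] at h1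
  have h3 : Polynomial.aeval z (1 - Polynomial.C (g : ℚ) * Polynomial.X : Polynomial ℚ) * E (sh g) z = z := by
    rw [← E_pmul _ (SR_sh g) hz]
    exact h1.trans (E_X z)
  simp only [map_mul, map_sub, map_one, Polynomial.aeval_X, Polynomial.aeval_C, eq_ratCast,
    Rat.cast_natCast] at h3
  rw [eq_div_iff (gz_pos g hz).ne']
  linarith

theorem sh_le (g : ℕ) : E (sh g) (1 / ((g : ℝ) + 8)) ≤ 1 / 8 := by
  have h8 : (0 : ℝ) < (g : ℝ) + 8 := by positivity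
  rw [E_sh g (by rw [abs_of_nonneg (by positivity)])]
  apply le_of_eq
  have : (g : ℝ) + 8 - g ≠ 0 := by norm_num
  field_simp
  ring

/-- evaluation of a substituted series -/
theorem E_ph (g : ℕ) {f : ℚ⟦X⟧} (hf : SR (1 / 8) f) : SR (1 / ((g : ℝ) + 8)) (f.subst (sh g)) ∧
    ∀ z, |z| ≤ 1 / ((g : ℝ) + 8) → E (f.subst (sh g)) z = E f (z / (1 - g * z)) := by
  have h := subst_main (f := f) (hasSubst_sh g) (coeff_sh_nonneg g) (by positivity) (SR_sh g)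
    (sh_le g) hf
  exact ⟨h.1, fun z hz => by rw [h.2 z hz, E_sh g hz]⟩

theorem E_lg (g : ℕ) {z : ℝ} (hz : |z| ≤ 1 / ((g : ℝ) + 8)) : E (lg g) z = Real.log (1 - g * z) := by
  have h := Real.hasSum_pow_div_log_of_abs_lt_one (gz_bound g hz)
  have h1 := (SR_lg g).summ hz
  unfold E
  rw [h1.tsum_eq_zero_add]
  have h2 : Real.log (1 - g * z) = -∑' n : ℕ, ((g : ℝ) * z) ^ (n + 1) / (n + 1) := by
    rw [h.tsum_eq, neg_neg]
  rw [h2, ← tsum_neg]
  simp only [lg, coeff_mk]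
  have h3 : (((-((g : ℚ) ^ 0 / ((0 : ℕ) : ℚ)) : ℚ) : ℝ)) * z ^ 0 = 0 := by simp
  rw [h3, zero_add]
  congr 1
  ext n
  push_cast
  rw [mul_pow]
  ring

/-! ### The four series -/

theorem SR_uu (g : ℕ) : SR (1 / ((g : ℝ) + 8)) (uu g) := (E_ph g SR_F).1
theorem SR_vv (g : ℕ) : SR (1 / ((g : ℝ) + 8)) (vv g) := (E_ph g SR_G).1
theorem SR_ww (g : ℕ) : SR (1 / ((g : ℝ) + 8)) (ww g) :=
  ((SR.C _ _).mul (by positivity) ((SR_uu g).mul (by positivity) (SR_lg g))).sub (by positivity)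
    (E_ph g SR_H).1
theorem SR_xx (g : ℕ) : SR (1 / ((g : ℝ) + 8)) (xx g) :=
  ((SR.C _ _).mul (by positivity) ((SR_vv g).mul (by positivity) (SR_lg g))).sub (by positivity)
    (E_ph g SR_K).1

theorem SR_four (g : ℕ) (i : Fin 4) : SR (1 / ((g : ℝ) + 8)) (four g i) := by
  fin_cases i
  exacts [SR_uu g, SR_vv g, SR_ww g, SR_xx g]

section

variable (g : ℕ) {z : ℝ}

theorem E_uu (hz : |z| ≤ 1 / ((g : ℝ) + 8)) : E (uu g) z = E Fs (z / (1 - g * z)) :=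
  (E_ph g SR_F).2 z hz

theorem E_vv (hz : |z| ≤ 1 / ((g : ℝ) + 8)) : E (vv g) z = E Gs (z / (1 - g * z)) :=
  (E_ph g SR_G).2 z hz

theorem E_ww (hz : |z| ≤ 1 / ((g : ℝ) + 8)) : E (ww g) z
    = 1 / 2 * (E Fs (z / (1 - g * z)) * Real.log (1 - g * z)) - E Hs (z / (1 - g * z)) := by
  unfold ww
  rw [E_sub ((SR.C _ _).mul (by positivity) ((SR_uu g).mul (by positivity) (SR_lg g)))
    (E_ph g SR_H).1 hz, E_mul (SR.C _ _) ((SR_uu g).mul (by positivity) (SR_lg g)) hz, E_C,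
    E_mul (SR_uu g) (SR_lg g) hz, E_lg g hz, E_uu g hz, (E_ph g SR_H).2 z hz]
  norm_num

theorem E_xx (hz : |z| ≤ 1 / ((g : ℝ) + 8)) : E (xx g) z
    = 1 / 2 * (E Gs (z / (1 - g * z)) * Real.log (1 - g * z)) - E Ks (z / (1 - g * z)) := by
  unfold xx
  rw [E_sub ((SR.C _ _).mul (by positivity) ((SR_vv g).mul (by positivity) (SR_lg g)))
    (E_ph g SR_K).1 hz, E_mul (SR.C _ _) ((SR_vv g).mul (by positivity) (SR_lg g)) hz, E_C,
    E_mul (SR_vv g) (SR_lg g) hz, E_lg g hz, E_vv g hz, (E_ph g SR_K).2 z hz]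
  norm_num

/-- the point `s = z / (1 - g z)` -/
theorem s_mem (h0 : 0 < z) (hz : z < 1 / ((g : ℝ) + 8)) : z / (1 - g * z) ∈ Ioo (0 : ℝ) (1 / 8) := by
  have h8 : (0 : ℝ) < (g : ℝ) + 8 := by positivity
  have h1 : 0 < 1 - (g : ℝ) * z := gz_pos g (by rw [abs_of_pos h0]; exact hz.le)
  refine ⟨by positivity, ?_⟩
  rw [div_lt_iff₀ h1]
  rw [lt_div_iff₀ h8] at hz
  linarith

theorem log_s (h0 : 0 < z) (hz : z < 1 / ((g : ℝ) + 8)) :
    Real.log (z / (1 - g * z)) = Real.log z - Real.log (1 - g * z) := by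
  have h1 : 0 < 1 - (g : ℝ) * z := gz_pos g (by rw [abs_of_pos h0]; exact hz.le)
  rw [Real.log_div h0.ne' h1.ne']

end

/-- the values, at `z` -/
theorem values : ∃ α β : ℝ, β ≠ 0 ∧ (∀ t : ℝ, 0 < t → t < 1 →
    KK t * EE (1 - t) + EE t * KK (1 - t) - KK t * KK (1 - t) = Real.pi / 2 * β) ∧
    ∀ (g : ℕ) (z : ℝ), 0 < z → z < 1 / ((g : ℝ) + 8) →
    KK (z / (1 - g * z)) = Real.pi / 2 * E (uu g) z ∧ EE (z / (1 - g * z)) = Real.pi / 2 * E (vv g) z ∧
    KK (1 - z / (1 - g * z)) = β * E (ww g) z + (α - β / 2 * Real.log z) * E (uu g) z ∧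
    KK (1 - z / (1 - g * z)) - EE (1 - z / (1 - g * z))
      = β * E (xx g) z + (α - β / 2 * Real.log z) * E (vv g) z := by
  obtain ⟨α, β, hβ, hleg, h⟩ := second
  refine ⟨α, β, hβ, hleg, fun g z h0 hz => ?_⟩
  have hz' : |z| ≤ 1 / ((g : ℝ) + 8) := by rw [abs_of_pos h0]; exact hz.le
  have hs := s_mem g h0 hz
  have h1 := h _ hs
  have hl := log_s g h0 hz
  rw [E_uu g hz', E_vv g hz', E_ww g hz', E_xx g hz']
  refine ⟨KK_F hs, EE_G hs, ?_, ?_⟩
  · rw [h1.1]; unfold Ph; rw [hl]; ring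
  · rw [h1.2]; unfold Ps; rw [hl]; ring

theorem t_ev : T_ev := by
  obtain ⟨α, β, hβ, -, h⟩ := values
  refine ⟨4, α, β, hβ, fun g t ht => ?_⟩
  have hg : (0 : ℝ) ≤ (g : ℝ) := by positivity
  have h1 : (g : ℝ) + 8 < ((g : ℝ) + 2) ^ 4 := by
    have : (8 : ℝ) * ((g : ℝ) + 2) ≤ ((g : ℝ) + 2) ^ 4 := by
      have h2 : (8 : ℝ) ≤ ((g : ℝ) + 2) ^ 3 := by
        calc (8 : ℝ) = 2 ^ 3 := by norm_num
          _ ≤ ((g : ℝ) + 2) ^ 3 := by gcongr; linarith
      calc (8 : ℝ) * ((g : ℝ) + 2) ≤ ((g : ℝ) + 2) ^ 3 * ((g : ℝ) + 2) := by gcongr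
        _ = _ := by ring
    linarith
  have ht8 : (g : ℝ) + 8 < t := lt_of_lt_of_le h1 ht
  have ht0 : 0 < t := by linarith
  have htg : t - g ≠ 0 := by linarith
  have hs : (1 / t) / (1 - g * (1 / t)) = 1 / (t - g) := by
    field_simp
  have := h g (1 / t) (by positivity) (by
    apply one_div_lt_one_div_of_lt (by positivity) ht8)
  rw [hs] at this
  have hl : Real.log (1 / t) = - Real.log t := by rw [one_div, Real.log_inv]
  rw [hl] at this
  simp only [ev_eq]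
  refine ⟨this.1, this.2.1, ?_, ?_⟩
  · rw [this.2.2.1]; ring
  · rw [this.2.2.2]; ring

end Pool.Agent.Y37.GF
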