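import Pool.Agent.Y37.GF.Stab

/-! Task `T_LI` of project GF: linear independence of the products over distinct shifts. -/

set_option autoImplicit false

open Filter Topology Set

namespace Pool.Agent.Y37.GF

open Pool.Agent.Y113

variable {α β : ℝ}

/-- one shift, with coefficients analytic on the closed interval -/
theorem single (hD : Dat α β) {g Δ : ℕ} (c : Ex Δ → ℝ → ℝ)
    (hc : ∀ e, ∀ z ∈ Icc 0 (z1 g), AnalyticAt ℝ (c e) z)
    (h : ∀ᶠ z in 𝓝[>] (0 : ℝ), ∑ e, c e z * mv (yt α β g z) e = 0) :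
    ∀ z ∈ Ioo 0 (z1 g), ∀ e, c e z = 0 := by
  have hR : Cl (Icc 0 (z1 g)) (fun z y => ∑ e : Ex Δ, c e z * mv y e) := by
    refine Cl.sum _ fun e => (Cl.coef (c e) (hc e)).mul ?_
    have : (fun (_ : ℝ) (y : Fin 4 → ℝ) => mv y e) = fun _ y =>
        y 0 ^ (e.1 0 : ℕ) * y 1 ^ (e.1 1 : ℕ) * y 2 ^ (e.1 2 : ℕ) * y 3 ^ (e.1 3 : ℕ) := by
      ext z y; simp [mv, Fin.prod_univ_four]
    rw [this]
    exact ((((Cl.coord 0).pow _).mul ((Cl.coord 1).pow _)).mul ((Cl.coord 2).pow _)).mul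
      ((Cl.coord 3).pow _)
  have hv : Van α β g (fun z y => ∑ e : Ex Δ, c e z * mv y e) := by
    refine ident_left (f := fun z => ∑ e : Ex Δ, c e z * mv (yy α β g z) e) ?_ (z1_pos g) ?_
    · intro z hz
      exact hR.an (Ioo_sub g hz) (fun i => an_yy hz α β i)
    · filter_upwards [h, self_mem_nhdsWithin] with z hz hz'
      have h0 : 0 < z := hz'
      have : yt α β g z = yy α β g z := by unfold yt; rw [if_pos h0]
      rwa [this] at hz
  intro z hz
  exact mono_indep (fun e => c e z) (fun y hy => surface hD hR hv z hz y hy)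

theorem mv_an {Δ : ℕ} (e : Ex Δ) {y : ℝ → Fin 4 → ℝ} {z : ℝ}
    (hy : ∀ i, AnalyticAt ℝ (fun z => y z i) z) : AnalyticAt ℝ (fun z => mv (y z) e) z := by
  unfold mv
  exact Finset.analyticAt_fun_prod _ fun i _ => (hy i).pow _

theorem poly_zero' {q : Polynomial ℝ} (h : ∀ᶠ z in 𝓝[>] (0 : ℝ), q.eval z = 0) : q = 0 := by
  obtain ⟨c, hc, hcf⟩ := (mem_nhdsGT_iff_exists_Ioo_subset).1 h
  apply Polynomial.eq_zero_of_infinite_isRoot
  exact (Set.Ioo_infinite hc).mono fun x hx => hcf hx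

/-- all shifts -/
theorem multi (hD : Dat α β) (Δ : ℕ) (n : ℕ) : ∀ (ι : Type) [Fintype ι] [DecidableEq ι] (g : ι → ℕ)
    (Q : (ι → Ex Δ) → Polynomial ℝ), Fintype.card ι = n → Function.Injective g →
    (∀ᶠ z in 𝓝[>] (0 : ℝ), ∑ b, (Q b).eval z * ∏ l, mv (yt α β (g l) z) (b l) = 0) →
    ∀ b, Q b = 0 := by
  induction n with
  | zero =>
    intro ι _ _ g Q hcard _ h b
    have : IsEmpty ι := Fintype.card_eq_zero_iff.1 hcard
    apply poly_zero'
    filter_upwards [h] with z hz
    rw [Fintype.sum_eq_single b (fun b' hb' => absurd (Subsingleton.elim b' b) hb')] at hz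
    simpa using hz
  | succ n ih =>
    intro ι _ _ g Q hcard hg h b
    have hne : (Finset.univ : Finset ι).Nonempty := by
      rw [← Finset.card_pos, Finset.card_univ, hcard]; omega
    obtain ⟨l₁, -, hl₁⟩ := Finset.exists_max_image Finset.univ g hne
    let e := Equiv.funSplitAt l₁ (Ex Δ)
    -- the coefficients
    let c : Ex Δ → ℝ → ℝ := fun x z => ∑ b' : {j // j ≠ l₁} → Ex Δ,
      (Q (e.symm (x, b'))).eval z * ∏ l : {j // j ≠ l₁}, mv (yt α β (g l) z) (b' l)
    have hlt : ∀ l : {j // j ≠ l₁}, z1 (g l₁) < z1 (g l) := by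
      intro l
      have h1 : g l < g l₁ := lt_of_le_of_ne (hl₁ l (Finset.mem_univ _)) fun h => l.2 (hg h)
      unfold z1
      apply one_div_lt_one_div_of_lt (by positivity)
      have : (g l : ℝ) < g l₁ := by exact_mod_cast h1
      linarith
    have hcan : ∀ x, ∀ z ∈ Icc 0 (z1 (g l₁)), AnalyticAt ℝ (c x) z := by
      intro x z hz
      refine Finset.analyticAt_fun_sum _ fun b' _ => ?_
      refine AnalyticAt.mul ?_ ?_
      · exact (AnalyticOnNhd.eval_polynomial (𝕜 := ℝ) _) z (Set.mem_univ _)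
      · exact Finset.analyticAt_fun_prod _ fun l _ =>
          mv_an _ fun i => an_yt' hD hz.1 (lt_of_le_of_lt hz.2 (hlt l)) i
    have hsum : ∀ z, ∑ b, (Q b).eval z * ∏ l, mv (yt α β (g l) z) (b l)
        = ∑ x, c x z * mv (yt α β (g l₁) z) x := by
      intro z
      rw [← e.symm.sum_comp, Fintype.sum_prod_type]
      refine Finset.sum_congr rfl fun x _ => ?_
      rw [Finset.sum_mul]
      refine Finset.sum_congr rfl fun b' _ => ?_
      rw [Fintype.prod_eq_mul_prod_subtype_ne _ l₁]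
      have h1 : e.symm (x, b') l₁ = x := by simp [e, Equiv.funSplitAt, Equiv.piSplitAt]
      have h2 : ∀ l : {j // j ≠ l₁}, e.symm (x, b') l = b' l := by
        intro l; simp [e, Equiv.funSplitAt, Equiv.piSplitAt, l.2]
      rw [h1]
      simp only [h2]
      ring
    have hz0 := single hD c hcan (h.mono fun z hz => by rw [← hsum]; exact hz)
    have hI : Ioo 0 (z1 (g l₁)) ∈ 𝓝[>] (0 : ℝ) := Ioo_mem_nhdsGT (z1_pos _)
    have key : ∀ x, ∀ b', Q (e.symm (x, b')) = 0 := by
      intro x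
      refine ih {j // j ≠ l₁} (fun l => g l) (fun b' => Q (e.symm (x, b'))) ?_ ?_ ?_
      · rw [Fintype.card_subtype_compl, hcard]; simp
      · intro a b hab; exact Subtype.ext (hg hab)
      · filter_upwards [hI] with z hz
        exact hz0 z hz x
    have := key (e b).1 (e b).2
    rwa [Prod.mk.eta, Equiv.symm_apply_apply] at this

theorem SR_mon {Δ : ℕ} (g : ℕ) (e : Ex Δ) : SR (1 / ((g : ℝ) + 8)) (mon g e) := by
  unfold mon
  exact SR.prod _ (by positivity) fun i _ => (SR_four g i).pow (by positivity) _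

theorem E_mon {Δ : ℕ} (g : ℕ) (e : Ex Δ) {z : ℝ} (hz : |z| ≤ 1 / ((g : ℝ) + 8)) :
    E (mon g e) z = mv (fun i => E (four g i) z) e := by
  unfold mon mv
  rw [E_prod _ (by positivity) (fun i _ => (SR_four g i).pow (by positivity) _) hz]
  refine Finset.prod_congr rfl fun i _ => ?_
  rw [E_pow (by positivity) (SR_four g i) hz]

theorem t_LI : T_LI := by
  intro k Δ g hg
  obtain ⟨α, β, hD⟩ := dat
  rw [Fintype.linearIndependent_iff]
  intro Q hQ
  -- a common radius
  set r : ℝ := 1 / ((∑ l, (g l : ℝ)) + 8) with hr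
  have hS : 0 ≤ ∑ l, (g l : ℝ) := Finset.sum_nonneg fun l _ => by positivity
  have hr0 : 0 < r := by positivity
  have hrl : ∀ l, r ≤ 1 / ((g l : ℝ) + 8) := by
    intro l
    apply one_div_le_one_div_of_le (by positivity)
    have := Finset.single_le_sum (f := fun l => (g l : ℝ)) (fun l _ => by positivity)
      (Finset.mem_univ l)
    linarith
  have hSR : ∀ b : Fin k → Ex Δ, ∀ l ∈ (Finset.univ : Finset (Fin k)), SR r (mon (g l) (b l)) :=
    fun b l _ => (SR_mon (g l) (b l)).mono hr0.le (hrl l)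
  have hSP : ∀ b : Fin k → Ex Δ, SR r (pmon g b) := fun b => SR.prod _ hr0.le (hSR b)
  have hval : ∀ z : ℝ, |z| ≤ r → ∑ b, ((Q b).map (Rat.castHom ℝ)).eval z *
      ∏ l, mv (fun i => E (four (g l) i) z) (b l) = 0 := by
    intro z hz
    have h1 : E (∑ b, Q b • pmon g b) z = 0 := by rw [hQ]; simp [E]
    have h2 : ∀ b, Q b • pmon g b = (Q b : PowerSeries ℚ) * pmon g b := fun b => by
      rw [Algebra.smul_def]; rfl
    simp only [h2] at h1
    rw [E_sum _ hr0.le (fun b _ => (SR.poly _ _).mul hr0.le (hSP b)) hz] at h1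
    rw [← h1]
    refine Finset.sum_congr rfl fun b _ => ?_
    rw [E_mul (SR.poly _ _) (hSP b) hz, E_poly]
    unfold pmon
    rw [E_prod _ hr0.le (hSR b) hz]
    congr 1
    · rw [Polynomial.eval_map, Polynomial.aeval_def]; rfl
    · exact Finset.prod_congr rfl fun l _ => (E_mon (g l) (b l) (hz.trans (hrl l))).symm
  have hsmall : ∀ᶠ z in 𝓝 (0 : ℝ), ∀ l, ∀ i, yt α β (g l) z i = E (four (g l) i) z := by
    rw [eventually_all]
    exact fun l => yt_small hD (g l)
  have hball : ∀ᶠ z in 𝓝 (0 : ℝ), |z| ≤ r := by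
    have : Metric.ball (0 : ℝ) r ∈ 𝓝 (0 : ℝ) := Metric.ball_mem_nhds _ hr0
    filter_upwards [this] with z hz
    rw [mem_ball_zero_iff, Real.norm_eq_abs] at hz
    exact hz.le
  have main := multi hD Δ k (Fin k) g (fun b => (Q b).map (Rat.castHom ℝ)) (Fintype.card_fin k) hg (by
    filter_upwards [nhdsWithin_le_nhds hsmall, nhdsWithin_le_nhds hball] with z h1 h2
    rw [← hval z h2]
    refine Finset.sum_congr rfl fun b _ => ?_
    congr 1
    refine Finset.prod_congr rfl fun l _ => ?_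
    congr 1
    exact funext (h1 l))
  intro b
  have := main b
  rwa [Polynomial.map_eq_zero] at this

end Pool.Agent.Y37.GF
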