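import Pool.Agent.Y113.Defs

/-! Evaluation of power series with rational coefficients at real points. -/

set_option autoImplicit false

open PowerSeries Filter Topology

namespace Pool.Agent.Y37.GF

open Pool.Agent.Y113

/-- the value at `z` -/
noncomputable def E (f : ℚ⟦X⟧) (z : ℝ) : ℝ := ∑' m : ℕ, ((coeff m f : ℚ) : ℝ) * z ^ m

theorem ev_eq (t : ℝ) (f : ℚ⟦X⟧) : ev t f = E f (1 / t) := rfl

/-- absolute convergence at `r` -/
def SR (r : ℝ) (f : ℚ⟦X⟧) : Prop := Summable fun m => |((coeff m f : ℚ) : ℝ)| * r ^ m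

variable {r z : ℝ} {f g : ℚ⟦X⟧}

theorem SR.nsumm (h : SR r f) (hz : |z| ≤ r) :
    Summable fun m : ℕ => ‖((coeff m f : ℚ) : ℝ) * z ^ m‖ := by
  refine Summable.of_nonneg_of_le (fun _ => norm_nonneg _) (fun m => ?_) h
  rw [norm_mul, norm_pow, Real.norm_eq_abs, Real.norm_eq_abs]
  gcongr

theorem SR.summ (h : SR r f) (hz : |z| ≤ r) :
    Summable fun m : ℕ => ((coeff m f : ℚ) : ℝ) * z ^ m := (h.nsumm hz).of_norm

theorem SR.mono {r' : ℝ} (h : SR r f) (h0 : 0 ≤ r') (hr : r' ≤ r) : SR r' f := by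
  have := h.nsumm (z := r') (by rwa [abs_of_nonneg h0])
  refine this.congr fun m => ?_
  rw [norm_mul, norm_pow, Real.norm_eq_abs, Real.norm_eq_abs, abs_of_nonneg h0]

theorem SR.hasSum (h : SR r f) (hz : |z| ≤ r) :
    HasSum (fun m : ℕ => ((coeff m f : ℚ) : ℝ) * z ^ m) (E f z) := (h.summ hz).hasSum

theorem SR.of_nsumm (hr : 0 ≤ r) (h : Summable fun m : ℕ => ‖((coeff m f : ℚ) : ℝ) * r ^ m‖) :
    SR r f := by
  refine h.congr fun m => ?_
  rw [norm_mul, norm_pow, Real.norm_eq_abs, Real.norm_eq_abs, abs_of_nonneg hr]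

theorem SR.add (hr : 0 ≤ r) (hf : SR r f) (hg : SR r g) : SR r (f + g) := by
  refine Summable.of_nonneg_of_le (fun m => by positivity) (fun m => ?_) (Summable.add hf hg)
  rw [map_add]; push_cast
  rw [← add_mul]
  gcongr
  exact abs_add_le _ _

theorem SR.sub (hr : 0 ≤ r) (hf : SR r f) (hg : SR r g) : SR r (f - g) := by
  refine Summable.of_nonneg_of_le (fun m => by positivity) (fun m => ?_) (Summable.add hf hg)
  rw [map_sub]; push_cast
  rw [← add_mul]
  gcongr
  exact abs_sub _ _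

theorem SR.mul (hr : 0 ≤ r) (hf : SR r f) (hg : SR r g) : SR r (f * g) := by
  have h1 := hf.nsumm (z := r) (by rw [abs_of_nonneg hr])
  have h2 := hg.nsumm (z := r) (by rw [abs_of_nonneg hr])
  have h3 := summable_norm_sum_mul_antidiagonal_of_summable_norm h1 h2
  refine SR.of_nsumm hr (h3.congr fun m => ?_)
  congr 1
  rw [coeff_mul]; push_cast
  rw [Finset.sum_mul]
  refine Finset.sum_congr rfl fun p hp => ?_
  rw [← Finset.HasAntidiagonal.mem_antidiagonal.1 hp, pow_add]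
  ring

theorem E_add (hf : SR r f) (hg : SR r g) (hz : |z| ≤ r) : E (f + g) z = E f z + E g z := by
  have := (hf.hasSum hz).add (hg.hasSum hz)
  have e : (fun m : ℕ => ((coeff m (f + g) : ℚ) : ℝ) * z ^ m)
      = fun m => ((coeff m f : ℚ) : ℝ) * z ^ m + ((coeff m g : ℚ) : ℝ) * z ^ m := by
    ext m; rw [map_add]; push_cast; ring
  unfold E at this ⊢
  rw [e]
  exact this.tsum_eq

theorem E_sub (hf : SR r f) (hg : SR r g) (hz : |z| ≤ r) : E (f - g) z = E f z - E g z := by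
  have := (hf.hasSum hz).sub (hg.hasSum hz)
  have e : (fun m : ℕ => ((coeff m (f - g) : ℚ) : ℝ) * z ^ m)
      = fun m => ((coeff m f : ℚ) : ℝ) * z ^ m - ((coeff m g : ℚ) : ℝ) * z ^ m := by
    ext m; rw [map_sub]; push_cast; ring
  unfold E at this ⊢
  rw [e]
  exact this.tsum_eq

theorem E_mul (hf : SR r f) (hg : SR r g) (hz : |z| ≤ r) : E (f * g) z = E f z * E g z := by
  have h3 := tsum_mul_tsum_eq_tsum_sum_antidiagonal_of_summable_norm (hf.nsumm hz) (hg.nsumm hz)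
  unfold E
  rw [h3]
  congr 1
  ext m
  rw [coeff_mul]; push_cast
  rw [Finset.sum_mul]
  refine Finset.sum_congr rfl fun p hp => ?_
  rw [← Finset.HasAntidiagonal.mem_antidiagonal.1 hp, pow_add]
  ring

theorem SR.poly (P : Polynomial ℚ) (r : ℝ) : SR r (P : ℚ⟦X⟧) := by
  refine summable_of_ne_finset_zero (s := Finset.range (P.natDegree + 1)) fun m hm => ?_
  rw [Polynomial.coeff_coe, Polynomial.coeff_eq_zero_of_natDegree_lt (by
    simpa [Nat.lt_succ_iff] using hm)]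
  simp

theorem E_poly (P : Polynomial ℚ) (z : ℝ) : E (P : ℚ⟦X⟧) z = Polynomial.aeval z P := by
  unfold E
  rw [Polynomial.aeval_eq_sum_range, tsum_eq_sum (s := Finset.range (P.natDegree + 1))]
  · refine Finset.sum_congr rfl fun m _ => ?_
    rw [Polynomial.coeff_coe, Rat.smul_def]
  · intro m hm
    rw [Polynomial.coeff_coe, Polynomial.coeff_eq_zero_of_natDegree_lt (by
      simpa [Nat.lt_succ_iff] using hm)]
    simp

theorem SR.C (a : ℚ) (r : ℝ) : SR r (C a : ℚ⟦X⟧) := by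
  have := SR.poly (Polynomial.C a) r
  rwa [Polynomial.coe_C] at this

theorem SR.X (r : ℝ) : SR r (X : ℚ⟦X⟧) := by
  have := SR.poly Polynomial.X r
  rwa [Polynomial.coe_X] at this

theorem SR.one (r : ℝ) : SR r (1 : ℚ⟦X⟧) := by
  have := SR.poly 1 r
  rwa [Polynomial.coe_one] at this

theorem E_C (a : ℚ) (z : ℝ) : E (C a : ℚ⟦X⟧) z = a := by
  have := E_poly (Polynomial.C a) z
  rw [Polynomial.coe_C] at this
  rw [this]; simp

theorem E_X (z : ℝ) : E (X : ℚ⟦X⟧) z = z := by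
  have := E_poly Polynomial.X z
  rw [Polynomial.coe_X] at this
  rw [this]; simp

theorem E_one (z : ℝ) : E (1 : ℚ⟦X⟧) z = 1 := by
  have := E_poly 1 z
  rw [Polynomial.coe_one] at this
  rw [this]; simp

theorem SR.prod {ι : Type*} (s : Finset ι) {F : ι → ℚ⟦X⟧} (hr : 0 ≤ r) (h : ∀ i ∈ s, SR r (F i)) :
    SR r (∏ i ∈ s, F i) := by
  classical
  induction s using Finset.induction_on with
  | empty => simpa using SR.one r
  | insert a s ha ih =>
    rw [Finset.prod_insert ha]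
    exact (h a (Finset.mem_insert_self _ _)).mul hr
      (ih fun i hi => h i (Finset.mem_insert_of_mem hi))

theorem E_prod {ι : Type*} (s : Finset ι) {F : ι → ℚ⟦X⟧} (hr : 0 ≤ r) (h : ∀ i ∈ s, SR r (F i))
    (hz : |z| ≤ r) : E (∏ i ∈ s, F i) z = ∏ i ∈ s, E (F i) z := by
  classical
  induction s using Finset.induction_on with
  | empty => simpa using E_one z
  | insert a s ha ih =>
    rw [Finset.prod_insert ha, Finset.prod_insert ha,
      E_mul (h a (Finset.mem_insert_self _ _))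
        (SR.prod s hr fun i hi => h i (Finset.mem_insert_of_mem hi)) hz,
      ih fun i hi => h i (Finset.mem_insert_of_mem hi)]

theorem SR.pow (hr : 0 ≤ r) (h : SR r f) (n : ℕ) : SR r (f ^ n) := by
  have := SR.prod (Finset.range n) (F := fun _ => f) hr (fun _ _ => h)
  simpa using this

theorem E_pow (hr : 0 ≤ r) (h : SR r f) (hz : |z| ≤ r) (n : ℕ) : E (f ^ n) z = E f z ^ n := by
  have := E_prod (Finset.range n) (F := fun _ => f) hr (fun _ _ => h) hz
  simpa using this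

theorem SR.sum {ι : Type*} (s : Finset ι) {F : ι → ℚ⟦X⟧} (hr : 0 ≤ r) (h : ∀ i ∈ s, SR r (F i)) :
    SR r (∑ i ∈ s, F i) := by
  classical
  induction s using Finset.induction_on with
  | empty => simpa using SR.C 0 r
  | insert a s ha ih =>
    rw [Finset.sum_insert ha]
    exact (h a (Finset.mem_insert_self _ _)).add hr
      (ih fun i hi => h i (Finset.mem_insert_of_mem hi))

theorem E_sum {ι : Type*} (s : Finset ι) {F : ι → ℚ⟦X⟧} (hr : 0 ≤ r) (h : ∀ i ∈ s, SR r (F i))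
    (hz : |z| ≤ r) : E (∑ i ∈ s, F i) z = ∑ i ∈ s, E (F i) z := by
  classical
  induction s using Finset.induction_on with
  | empty => simpa using E_C 0 z
  | insert a s ha ih =>
    rw [Finset.sum_insert ha, Finset.sum_insert ha,
      E_add (h a (Finset.mem_insert_self _ _))
        (SR.sum s hr fun i hi => h i (Finset.mem_insert_of_mem hi)) hz,
      ih fun i hi => h i (Finset.mem_insert_of_mem hi)]

/-- geometric bounds give convergence -/
theorem SR.of_bound {A B : ℝ} (hr : 0 ≤ r) (hB : 0 ≤ B) (hrB : B * r < 1)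
    (h : ∀ m, |((coeff m f : ℚ) : ℝ)| ≤ A * B ^ m) : SR r f := by
  have h1 : Summable fun m : ℕ => A * (B * r) ^ m :=
    (summable_geometric_of_lt_one (by positivity) hrB).mul_left A
  refine Summable.of_nonneg_of_le (fun m => by positivity) (fun m => ?_) h1
  calc |((coeff m f : ℚ) : ℝ)| * r ^ m ≤ (A * B ^ m) * r ^ m := by
        gcongr; exact h m
    _ = A * (B * r) ^ m := by rw [mul_pow]; ring

/-- convergence gives geometric bounds -/
theorem SR.bound (hr : 0 < r) (h : SR r f) : ∃ A, 0 ≤ A ∧ ∀ m, |((coeff m f : ℚ) : ℝ)| ≤ A * (1 / r) ^ m := by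
  refine ⟨∑' m, |((coeff m f : ℚ) : ℝ)| * r ^ m, tsum_nonneg fun m => by positivity, fun m => ?_⟩
  have h1 : |((coeff m f : ℚ) : ℝ)| * r ^ m ≤ ∑' m, |((coeff m f : ℚ) : ℝ)| * r ^ m :=
    h.le_tsum m fun i _ => by positivity
  rw [one_div, inv_pow, ← div_eq_mul_inv, le_div_iff₀ (by positivity)]
  exact h1

theorem SR.der {r' : ℝ} (h0 : 0 ≤ r') (hr : r' < r) (h : SR r f) : SR r' (d⁄dX ℚ f) := by
  have hr0 : 0 < r := lt_of_le_of_lt h0 hr
  obtain ⟨A, hA0, hA⟩ := h.bound hr0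
  have hq : ‖r' / r‖ < 1 := by
    rw [Real.norm_eq_abs, abs_of_nonneg (by positivity), div_lt_one hr0]; exact hr
  have h1 : Summable fun m : ℕ => (A / r) * (((m : ℝ) ^ 1 * (r' / r) ^ m) + (r' / r) ^ m) :=
    ((summable_pow_mul_geometric_of_norm_lt_one 1 hq).add
      (summable_geometric_of_norm_lt_one hq)).mul_left _
  refine Summable.of_nonneg_of_le (fun m => by positivity) (fun m => ?_) h1
  rw [coeff_derivative]
  push_cast
  rw [abs_mul, abs_of_nonneg (by positivity : (0 : ℝ) ≤ (m : ℝ) + 1)]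
  calc |((coeff (m + 1) f : ℚ) : ℝ)| * ((m : ℝ) + 1) * r' ^ m
      ≤ (A * (1 / r) ^ (m + 1)) * ((m : ℝ) + 1) * r' ^ m := by gcongr; exact hA _
    _ = _ := by
      simp only [div_pow, pow_succ, one_pow]
      field_simp

theorem hasDerivAt_E (h : SR r f) (hz : |z| < r) : HasDerivAt (E f) (E (d⁄dX ℚ f) z) z := by
  obtain ⟨r', h1, h2⟩ := exists_between hz
  have h0 : 0 < r' := lt_of_le_of_lt (abs_nonneg _) h1
  have hd := h.der h0.le h2
  -- the derived series, shifted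
  have hu : Summable fun m : ℕ => |((coeff m f : ℚ) : ℝ)| * m * r' ^ (m - 1) := by
    refine (summable_nat_add_iff 1).1 (hd.congr fun m => ?_)
    rw [coeff_derivative]
    push_cast
    rw [abs_mul, abs_of_nonneg (by positivity : (0 : ℝ) ≤ (m : ℝ) + 1)]
  have key := hasDerivAt_tsum_of_isPreconnected (g := fun (m : ℕ) (y : ℝ) => ((coeff m f : ℚ) : ℝ) * y ^ m)
    (g' := fun (m : ℕ) (y : ℝ) => ((coeff m f : ℚ) : ℝ) * (m * y ^ (m - 1)))
    (t := Metric.ball (0 : ℝ) r') (y₀ := z) (y := z) hu Metric.isOpen_ball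
    (convex_ball _ _).isPreconnected
    (fun m y _ => (hasDerivAt_pow m y).const_mul _)
    (fun m y hy => by
      rw [mem_ball_zero_iff, Real.norm_eq_abs] at hy
      rw [norm_mul, norm_mul, norm_pow, Real.norm_eq_abs, Real.norm_eq_abs, Real.norm_eq_abs,
        Nat.abs_cast, ← mul_assoc]
      gcongr)
    (by rw [mem_ball_zero_iff, Real.norm_eq_abs]; exact h1)
    (h.summ hz.le) (by rw [mem_ball_zero_iff, Real.norm_eq_abs]; exact h1)
  have h3 : (∑' m : ℕ, ((coeff m f : ℚ) : ℝ) * (m * z ^ (m - 1))) = E (d⁄dX ℚ f) z := by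
    have hs : Summable fun m : ℕ => ((coeff m f : ℚ) : ℝ) * (m * z ^ (m - 1)) := by
      refine Summable.of_norm (Summable.of_nonneg_of_le (fun _ => norm_nonneg _) (fun m => ?_) hu)
      rw [norm_mul, norm_mul, norm_pow, Real.norm_eq_abs, Real.norm_eq_abs, Real.norm_eq_abs,
        Nat.abs_cast, ← mul_assoc]
      gcongr
    rw [hs.tsum_eq_zero_add]
    unfold E
    simp only [Nat.cast_zero, zero_mul, mul_zero, zero_add, Nat.add_sub_cancel]
    congr 1
    ext m
    rw [coeff_derivative]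
    push_cast; ring
  rw [← h3]
  exact key

/-- exchange of a double sum -/
theorem dbl {b : ℕ → ℝ} {A : ℕ → ℕ → ℝ} (hA : ∀ d m, 0 ≤ A d m) {r x : ℝ} (hr : 0 ≤ r) (_hx0 : 0 ≤ x)
    (hx : ∀ d, HasSum (fun m => A d m * r ^ m) (x ^ d)) (hb : Summable fun d => |b d| * x ^ d)
    {z : ℝ} (hz : |z| ≤ r) : Summable fun p : ℕ × ℕ => ‖b p.1 * (A p.1 p.2 * z ^ p.2)‖ := by
  have hpos : 0 ≤ fun p : ℕ × ℕ => |b p.1| * (A p.1 p.2 * r ^ p.2) := by
    intro p
    have := hA p.1 p.2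
    exact mul_nonneg (abs_nonneg _) (mul_nonneg this (pow_nonneg hr _))
  have h3a : ∀ d, Summable fun m => |b d| * (A d m * r ^ m) := fun d =>
    (hx d).summable.mul_left |b d|
  have h3b : Summable fun d => ∑' m, |b d| * (A d m * r ^ m) := by
    refine hb.congr fun d => ?_
    rw [tsum_mul_left, (hx d).tsum_eq]
  have h3 : Summable fun p : ℕ × ℕ => |b p.1| * (A p.1 p.2 * r ^ p.2) :=
    (summable_prod_of_nonneg hpos).2 ⟨h3a, h3b⟩
  refine Summable.of_nonneg_of_le (fun _ => norm_nonneg _) (fun p => ?_) h3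
  have := hA p.1 p.2
  rw [norm_mul, norm_mul, norm_pow, Real.norm_eq_abs, Real.norm_eq_abs, Real.norm_eq_abs,
    abs_of_nonneg this]
  gcongr

theorem dbl1 {b : ℕ → ℝ} {A : ℕ → ℕ → ℝ} (hA : ∀ d m, 0 ≤ A d m) {r x : ℝ} (hr : 0 ≤ r) (hx0 : 0 ≤ x)
    (hx : ∀ d, HasSum (fun m => A d m * r ^ m) (x ^ d)) (hb : Summable fun d => |b d| * x ^ d)
    {c : ℕ → ℝ} (hc : ∀ m, c m = ∑' d, b d * A d m) : Summable fun m => |c m| * r ^ m := by
  have hrr : |r| ≤ r := by rw [abs_of_nonneg hr]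
  have h4 := dbl hA hr hx0 hx hb hrr
  have h5 := h4.prod_symm
  have h6 := h5.prod
  refine Summable.of_nonneg_of_le (fun m => by positivity) (fun m => ?_) h6
  have h7 := h5.prod_factor m
  simp only [Prod.swap_prod_mk] at h7 ⊢
  have h8 : ‖∑' d, b d * (A d m * r ^ m)‖ ≤ ∑' d, ‖b d * (A d m * r ^ m)‖ :=
    norm_tsum_le_tsum_norm h7
  refine le_trans (le_of_eq ?_) h8
  rw [hc m, Real.norm_eq_abs]
  have h9 : (∑' d, b d * (A d m * r ^ m)) = (∑' d, b d * A d m) * r ^ m := by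
    rw [← tsum_mul_right]; congr 1; ext d; ring
  rw [h9, abs_mul, abs_of_nonneg (by positivity : 0 ≤ r ^ m)]

theorem dbl2 {b : ℕ → ℝ} {A : ℕ → ℕ → ℝ} (hA : ∀ d m, 0 ≤ A d m) {r x : ℝ} (hr : 0 ≤ r) (hx0 : 0 ≤ x)
    (hx : ∀ d, HasSum (fun m => A d m * r ^ m) (x ^ d)) (hb : Summable fun d => |b d| * x ^ d)
    {c : ℕ → ℝ} (hc : ∀ m, c m = ∑' d, b d * A d m) {z y : ℝ} (hz : |z| ≤ r)
    (hy : ∀ d, HasSum (fun m => A d m * z ^ m) (y ^ d)) :
    (∑' m, c m * z ^ m) = ∑' d, b d * y ^ d := by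
  have h4 := (dbl hA hr hx0 hx hb hz).of_norm
  have h5 : (∑' m, ∑' d, b d * (A d m * z ^ m)) = ∑' d, ∑' m, b d * (A d m * z ^ m) :=
    Summable.tsum_comm (f := fun d m => b d * (A d m * z ^ m)) h4
  have h6 : (∑' d, b d * y ^ d) = ∑' d, ∑' m, b d * (A d m * z ^ m) := by
    congr 1
    ext d
    rw [tsum_mul_left, (hy d).tsum_eq]
  rw [h6, ← h5]
  congr 1
  ext m
  rw [hc m, ← tsum_mul_right]
  congr 1
  ext d
  ring

/-- substitution of a series with nonnegative coefficients -/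
theorem subst_main {σ : ℚ⟦X⟧} (hσ : HasSubst σ) (hσ0 : ∀ m, 0 ≤ coeff m σ) {ρ : ℝ} (hr : 0 ≤ r)
    (h1 : SR r σ) (h2 : E σ r ≤ ρ) (hf : SR ρ f) :
    SR r (f.subst σ) ∧ ∀ z, |z| ≤ r → E (f.subst σ) z = E f (E σ z) := by
  have hE0 : 0 ≤ E σ r := tsum_nonneg fun m => by
    have := hσ0 m
    have : (0 : ℝ) ≤ ((coeff m σ : ℚ) : ℝ) := by exact_mod_cast this
    positivity
  have hpow : ∀ d m, 0 ≤ coeff m (σ ^ d) := by
    intro d
    induction d with
    | zero => intro m; rw [pow_zero, coeff_one]; split_ifs <;> norm_num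
    | succ d ih =>
      intro m
      rw [pow_succ, coeff_mul]
      exact Finset.sum_nonneg fun p _ => mul_nonneg (ih _) (hσ0 _)
  have hEd : ∀ z, |z| ≤ r → ∀ d, HasSum (fun m => ((coeff m (σ ^ d) : ℚ) : ℝ) * z ^ m) (E σ z ^ d) := by
    intro z hz d
    rw [← E_pow hr h1 hz d]
    exact (h1.pow hr d).hasSum hz
  have hf' := hf.mono hE0 h2
  have hrr : |r| ≤ r := by rw [abs_of_nonneg hr]
  have hA : ∀ d m, (0 : ℝ) ≤ ((coeff m (σ ^ d) : ℚ) : ℝ) := fun d m => by exact_mod_cast hpow d m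
  -- coefficients of the substitution
  have hc : ∀ m, ((coeff m (f.subst σ) : ℚ) : ℝ)
      = ∑' d, ((coeff d f : ℚ) : ℝ) * ((coeff m (σ ^ d) : ℚ) : ℝ) := by
    intro m
    have hfs := coeff_subst_finite' hσ f m
    rw [coeff_subst' hσ, finsum_eq_sum _ hfs]
    push_cast
    rw [tsum_eq_sum (s := hfs.toFinset)]
    · refine Finset.sum_congr rfl fun d _ => ?_
      rw [smul_eq_mul]; push_cast; ring
    · intro d hd
      have hd' : ¬ (d ∈ Function.support fun d => coeff d f • coeff m (σ ^ d)) := fun h =>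
        hd ((Set.Finite.mem_toFinset _).2 h)
      rw [Function.mem_support, not_not, smul_eq_mul] at hd'
      exact_mod_cast hd'
  exact ⟨dbl1 hA hr hE0 (hEd r hrr) hf' hc, fun z hz => dbl2 hA hr hE0 (hEd r hrr) hf' hc hz (hEd z hz)⟩

end Pool.Agent.Y37.GF
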