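import Pool.Agent.Y37.GF.Ev
import Pool.Agent.TH818.AR.Ind
import Pool.Agent.TH818.AR.Tr

/-! Polynomial relations with analytic coefficients, and the action of `SL₂`. -/

set_option autoImplicit false

open Filter Topology Set Polynomial

namespace Pool.Agent.Y37.GF

open Pool.Agent.Y113 Pool.Agent.TH818.AR.IndL

/-- polynomial functions of `y` with coefficients analytic on `J` -/
inductive Cl (J : Set ℝ) : (ℝ → (Fin 4 → ℝ) → ℝ) → Prop
  | coef (c : ℝ → ℝ) (h : ∀ z ∈ J, AnalyticAt ℝ c z) : Cl J (fun z _ => c z)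
  | coord (i : Fin 4) : Cl J (fun _ y => y i)
  | add {R S : ℝ → (Fin 4 → ℝ) → ℝ} : Cl J R → Cl J S → Cl J (fun z y => R z y + S z y)
  | mul {R S : ℝ → (Fin 4 → ℝ) → ℝ} : Cl J R → Cl J S → Cl J (fun z y => R z y * S z y)

variable {J : Set ℝ}

theorem Cl.const (a : ℝ) : Cl J (fun _ _ => a) := Cl.coef (fun _ => a) fun _ _ => analyticAt_const

theorem Cl.pow {R : ℝ → (Fin 4 → ℝ) → ℝ} (h : Cl J R) (n : ℕ) : Cl J (fun z y => R z y ^ n) := by
  induction n with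
  | zero => simpa using Cl.const (J := J) 1
  | succ n ih => simp only [pow_succ]; exact ih.mul h

theorem Cl.sum {ι : Type*} (s : Finset ι) {R : ι → ℝ → (Fin 4 → ℝ) → ℝ} (h : ∀ i, Cl J (R i)) :
    Cl J (fun z y => ∑ i ∈ s, R i z y) := by
  classical
  induction s using Finset.induction_on with
  | empty => simpa using Cl.const (J := J) 0
  | insert a s ha ih => simp only [Finset.sum_insert ha]; exact (h a).add ih

theorem Cl.an {R : ℝ → (Fin 4 → ℝ) → ℝ} (h : Cl J R) {y : ℝ → Fin 4 → ℝ} {z : ℝ} (hz : z ∈ J)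
    (hy : ∀ i, AnalyticAt ℝ (fun z => y z i) z) : AnalyticAt ℝ (fun z => R z (y z)) z := by
  induction h with
  | coef c h => exact h z hz
  | coord i => exact hy i
  | add _ _ ih1 ih2 => exact ih1.add ih2
  | mul _ _ ih1 ih2 => exact ih1.mul ih2

theorem Cl.poly {R : ℝ → (Fin 4 → ℝ) → ℝ} (h : Cl J R) {φ : ℝ → ℝ} (hφ : AnalyticAt ℝ φ 0)
    (h0 : φ 0 ∈ J) {Y : Fin 4 → ℝ → ℝ[X]} (hY : ∀ i, AnP (Y i))
    (hd : ∀ i, ∃ n, ∀ τ, (Y i τ).natDegree ≤ n) :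
    ∃ P : ℝ → ℝ[X], AnP P ∧ (∃ n, ∀ τ, (P τ).natDegree ≤ n) ∧
      ∀ τ Λ, (P τ).eval Λ = R (φ τ) (fun i => (Y i τ).eval Λ) := by
  induction h with
  | coef c h =>
    exact ⟨fun τ => Polynomial.C (c (φ τ)), AnP.C ((h _ h0).comp hφ), ⟨0, fun τ => by simp⟩,
      fun τ Λ => by simp⟩
  | coord i => exact ⟨Y i, hY i, hd i, fun τ Λ => rfl⟩
  | add _ _ ih1 ih2 =>
    obtain ⟨P, hP, ⟨n, hn⟩, hPe⟩ := ih1
    obtain ⟨Q, hQ, ⟨m, hm⟩, hQe⟩ := ih2
    exact ⟨fun τ => P τ + Q τ, hP.add hQ, ⟨max n m, fun τ =>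
      (natDegree_add_le _ _).trans (max_le_max (hn τ) (hm τ))⟩, fun τ Λ => by
        rw [eval_add, hPe, hQe]⟩
  | mul _ _ ih1 ih2 =>
    obtain ⟨P, hP, ⟨n, hn⟩, hPe⟩ := ih1
    obtain ⟨Q, hQ, ⟨m, hm⟩, hQe⟩ := ih2
    exact ⟨fun τ => P τ * Q τ, hP.mul hQ, ⟨n + m, fun τ =>
      natDegree_mul_le.trans (add_le_add (hn τ) (hm τ))⟩, fun τ Λ => by
        rw [eval_mul, hPe, hQe]⟩

/-- the action of a `2 × 2` matrix -/
def act (y : Fin 4 → ℝ) (M : Matrix (Fin 2) (Fin 2) ℝ) : Fin 4 → ℝ :=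
  ![y 0 * M 0 0 + y 2 * M 1 0, y 1 * M 0 0 + y 3 * M 1 0,
    y 0 * M 0 1 + y 2 * M 1 1, y 1 * M 0 1 + y 3 * M 1 1]

theorem act_act (y : Fin 4 → ℝ) (M N : Matrix (Fin 2) (Fin 2) ℝ) :
    act (act y M) N = act y (M * N) := by
  ext i
  fin_cases i <;> simp [act, Matrix.mul_apply, Fin.sum_univ_two] <;> ring

theorem Cl.lin {R : ℝ → (Fin 4 → ℝ) → ℝ} (h : Cl J R) (M : Matrix (Fin 2) (Fin 2) ℝ) :
    Cl J (fun z y => R z (act y M)) := by
  induction h with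
  | coef c h => exact Cl.coef c h
  | coord i =>
    have key : ∀ (i j : Fin 4) (a b : ℝ), Cl J (fun _ y => y i * a + y j * b) := fun i j a b =>
      ((Cl.coord i).mul (Cl.const a)).add ((Cl.coord j).mul (Cl.const b))
    fin_cases i
    · exact key 0 2 _ _
    · exact key 1 3 _ _
    · exact key 0 2 _ _
    · exact key 1 3 _ _
  | add _ _ ih1 ih2 => exact ih1.add ih2
  | mul _ _ ih1 ih2 => exact ih1.mul ih2

/-! ### The monomials are independent on the surface `u x - v w = -1` -/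

theorem coef_zero {ι : Type*} (s : Finset ι) (c : ι → ℝ) (n : ι → ℕ) {T : Set ℝ} (hT : T.Infinite)
    (h : ∀ x ∈ T, ∑ e ∈ s, c e * x ^ n e = 0) (k : ℕ) : ∑ e ∈ s with n e = k, c e = 0 := by
  classical
  set p : ℝ[X] := ∑ e ∈ s, Polynomial.C (c e) * X ^ n e with hp
  have hp0 : p = 0 := by
    apply Polynomial.eq_zero_of_infinite_isRoot
    refine hT.mono fun x hx => ?_
    change IsRoot p x
    rw [IsRoot.def, hp, eval_finsetSum]
    simpa using h x hx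
  have h1 : p.coeff k = 0 := by rw [hp0]; simp
  rw [hp, finsetSum_coeff] at h1
  rw [Finset.sum_filter]
  refine Eq.trans (Finset.sum_congr rfl fun e _ => ?_) h1
  rw [coeff_C_mul, coeff_X_pow]
  by_cases h2 : n e = k
  · simp [h2]
  · rw [if_neg h2, if_neg (Ne.symm h2), mul_zero]

/-- a monomial -/
def mv {Δ : ℕ} (y : Fin 4 → ℝ) (e : Ex Δ) : ℝ := ∏ i, y i ^ (e.1 i : ℕ)

theorem mono_indep {Δ : ℕ} (c : Ex Δ → ℝ)
    (h : ∀ y : Fin 4 → ℝ, y 0 * y 3 - y 1 * y 2 = -1 → ∑ e, c e * mv y e = 0) : ∀ e, c e = 0 := by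
  classical
  intro e₀
  -- first variable
  have h1 : ∀ v w : ℝ, ∑ e : Ex Δ with (e.1 0 : ℕ) + Δ - e.1 3 = (e₀.1 0 : ℕ) + Δ - e₀.1 3,
      c e * (v ^ (e.1 1 : ℕ) * w ^ (e.1 2 : ℕ) * (v * w - 1) ^ (e.1 3 : ℕ)) = 0 := by
    intro v w
    refine coef_zero Finset.univ _ (fun e : Ex Δ => (e.1 0 : ℕ) + Δ - e.1 3) (T := {u : ℝ | u ≠ 0})
      ?_ (fun u hu => ?_) _
    · exact (Set.finite_singleton (0 : ℝ)).infinite_compl
    · have hu' : u ≠ 0 := hu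
      have h2 := h ![u, v, w, (v * w - 1) / u] (by
        simp only [Matrix.cons_val]; field_simp; ring)
      have h3 : (∑ e : Ex Δ, c e * mv ![u, v, w, (v * w - 1) / u] e) * u ^ Δ = 0 := by
        rw [h2, zero_mul]
      rw [← h3, Finset.sum_mul]
      refine Finset.sum_congr rfl fun e _ => ?_
      have h4 : (e.1 3 : ℕ) ≤ Δ := Nat.lt_succ_iff.1 (e.1 3).2
      have h5 : u ^ ((e.1 0 : ℕ) + Δ - e.1 3) * u ^ (e.1 3 : ℕ) = u ^ (e.1 0 : ℕ) * u ^ Δ := by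
        rw [← pow_add, ← pow_add]; congr 1; omega
      simp only [mv, Fin.prod_univ_four, Matrix.cons_val]
      rw [div_pow]
      field_simp
      linear_combination (c e * v ^ (e.1 1 : ℕ) * w ^ (e.1 2 : ℕ) * (v * w - 1) ^ (e.1 3 : ℕ)) * h5
  have hS : ∀ e : Ex Δ, (e.1 0 : ℕ) + Δ - e.1 3 = (e₀.1 0 : ℕ) + Δ - e₀.1 3 →
      (e.1 0 = e₀.1 0 ∧ e.1 3 = e₀.1 3) := by
    intro e he
    have h4 : (e.1 3 : ℕ) ≤ Δ := Nat.lt_succ_iff.1 (e.1 3).2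
    have h5 : (e₀.1 3 : ℕ) ≤ Δ := Nat.lt_succ_iff.1 (e₀.1 3).2
    have h6 := e.2.2
    have h7 := e₀.2.2
    simp only [Fin.ext_iff, Fin.val_zero] at h6 h7 ⊢
    omega
  -- remove the factor
  have h2 : ∀ v w : ℝ, v * w ≠ 1 →
      ∑ e : Ex Δ with (e.1 0 : ℕ) + Δ - e.1 3 = (e₀.1 0 : ℕ) + Δ - e₀.1 3,
      (c e * v ^ (e.1 1 : ℕ)) * w ^ (e.1 2 : ℕ) = 0 := by
    intro v w hvw
    have h3 := h1 v w
    have h4 : (v * w - 1) ^ (e₀.1 3 : ℕ) ≠ 0 := pow_ne_zero _ (sub_ne_zero.2 hvw)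
    have h5 : (∑ e : Ex Δ with (e.1 0 : ℕ) + Δ - e.1 3 = (e₀.1 0 : ℕ) + Δ - e₀.1 3,
      (c e * v ^ (e.1 1 : ℕ)) * w ^ (e.1 2 : ℕ)) * (v * w - 1) ^ (e₀.1 3 : ℕ) = 0 := by
      rw [Finset.sum_mul, ← h3]
      refine Finset.sum_congr rfl fun e he => ?_
      rw [(hS e (Finset.mem_filter.1 he).2).2]
      ring
    exact (mul_eq_zero.1 h5).resolve_right h4
  have h3 : ∀ v : ℝ, ∑ e ∈ (Finset.univ.filter fun e : Ex Δ =>
      (e.1 0 : ℕ) + Δ - e.1 3 = (e₀.1 0 : ℕ) + Δ - e₀.1 3) with (e.1 2 : ℕ) = e₀.1 2,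
      c e * v ^ (e.1 1 : ℕ) = 0 := by
    intro v
    refine coef_zero _ (fun e : Ex Δ => c e * v ^ (e.1 1 : ℕ)) (fun e : Ex Δ => (e.1 2 : ℕ))
      (T := {w : ℝ | v * w ≠ 1}) ?_ (fun w hw => h2 v w hw) _
    have : {w : ℝ | v * w ≠ 1} ⊇ {v⁻¹}ᶜ := by
      intro w hw h
      apply hw
      rw [mem_singleton_iff]
      exact (eq_inv_of_mul_eq_one_right h)
    exact (Set.finite_singleton _).infinite_compl.mono this
  have h4 := coef_zero _ c (fun e : Ex Δ => (e.1 1 : ℕ)) (T := Set.univ) Set.infinite_univ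
    (fun v _ => h3 v) (e₀.1 1)
  rw [Finset.sum_eq_single e₀] at h4
  · exact h4
  · intro e he hne
    exfalso
    apply hne
    simp only [Finset.mem_filter] at he
    have h5 := hS e he.1.1.2
    have h6 := he.1.2
    have h7 := he.2
    apply Subtype.ext
    funext i
    fin_cases i
    · exact h5.1
    · exact Fin.ext h7
    · exact Fin.ext h6
    · exact h5.2
  · intro h5
    exfalso
    apply h5
    simp

end Pool.Agent.Y37.GF
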