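import Pool.Agent.Y37.GF.Cl

/-! Invariance of the relations between the four functions under `SL₂`. -/

set_option autoImplicit false

open Filter Topology Set Polynomial

namespace Pool.Agent.Y37.GF

open Pool.Agent.Y113 Pool.Agent.TH818.AR.IndL

/-! ### Analytic facts -/

theorem an_E {r : ℝ} {f : PowerSeries ℚ} (hr : 0 < r) (hf : SR r f) : AnalyticAt ℝ (E f) 0 := by
  refine ⟨FormalMultilinearSeries.ofScalars ℝ (fun m => ((PowerSeries.coeff m f : ℚ) : ℝ)), ?_⟩
  rw [hasFPowerSeriesAt_iff]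
  have : Metric.ball (0 : ℝ) r ∈ 𝓝 (0 : ℝ) := Metric.ball_mem_nhds _ hr
  filter_upwards [this] with z hz
  rw [mem_ball_zero_iff, Real.norm_eq_abs] at hz
  have h := hf.hasSum hz.le
  rw [zero_add]
  have e : (fun n => z ^ n • (FormalMultilinearSeries.ofScalars ℝ
      (fun m => ((PowerSeries.coeff m f : ℚ) : ℝ))).coeff n)
      = fun m => ((PowerSeries.coeff m f : ℚ) : ℝ) * z ^ m := by
    ext m
    rw [FormalMultilinearSeries.coeff_ofScalars, smul_eq_mul, mul_comm]
  rw [e]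
  exact h

theorem ident_left {f : ℝ → ℝ} {a b : ℝ} (hf : AnalyticOnNhd ℝ f (Ioo a b)) (hab : a < b)
    (h : ∀ᶠ z in 𝓝[>] a, f z = 0) : ∀ z ∈ Ioo a b, f z = 0 := by
  obtain ⟨c, hc, hcf⟩ := (mem_nhdsGT_iff_exists_Ioo_subset).1 h
  have hc' : a < c := hc
  set m := (a + min b c) / 2 with hm
  have h1 : a < min b c := lt_min hab hc'
  have h2 : a < m := by rw [hm]; linarith
  have h3 : m < min b c := by rw [hm]; linarith
  have h4 : f =ᶠ[𝓝 m] 0 := by
    have : Ioo a c ∈ 𝓝 m := Ioo_mem_nhds h2 (lt_of_lt_of_le h3 (min_le_right _ _))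
    filter_upwards [this] with z hz
    exact hcf hz
  intro z hz
  exact hf.eqOn_zero_of_preconnected_of_eventuallyEq_zero isPreconnected_Ioo
    ⟨h2, lt_of_lt_of_le h3 (min_le_left _ _)⟩ h4 hz

theorem ident_right {f : ℝ → ℝ} {a b : ℝ} (hf : AnalyticOnNhd ℝ f (Ioo a b)) (hab : a < b)
    (h : ∀ᶠ z in 𝓝[<] b, f z = 0) : ∀ z ∈ Ioo a b, f z = 0 := by
  obtain ⟨c, hc, hcf⟩ := (mem_nhdsLT_iff_exists_Ioo_subset).1 h
  have hc' : c < b := hc
  set m := (b + max a c) / 2 with hm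
  have h1 : max a c < b := max_lt hab hc'
  have h2 : m < b := by rw [hm]; linarith
  have h3 : max a c < m := by rw [hm]; linarith
  have h4 : f =ᶠ[𝓝 m] 0 := by
    have : Ioo c b ∈ 𝓝 m := Ioo_mem_nhds (lt_of_le_of_lt (le_max_right _ _) h3) h2
    filter_upwards [this] with z hz
    exact hcf hz
  intro z hz
  exact hf.eqOn_zero_of_preconnected_of_eventuallyEq_zero isPreconnected_Ioo
    ⟨lt_of_le_of_lt (le_max_left _ _) h3, h2⟩ h4 hz

/-! ### The four functions -/

/-- the point of the curve -/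
noncomputable def sz (g : ℕ) (z : ℝ) : ℝ := z / (1 - g * z)

/-- the end of the interval -/
noncomputable def z1 (g : ℕ) : ℝ := 1 / ((g : ℝ) + 1)

theorem z1_pos (g : ℕ) : 0 < z1 g := by unfold z1; positivity

theorem den_pos {g : ℕ} {z : ℝ} (hz : z ∈ Ioo 0 (z1 g)) : 0 < 1 - (g : ℝ) * z := by
  have h1 : (0 : ℝ) < (g : ℝ) + 1 := by positivity
  have h2 := hz.2
  unfold z1 at h2
  rw [lt_div_iff₀ h1] at h2
  linarith [hz.1]

theorem sz_mem {g : ℕ} {z : ℝ} (hz : z ∈ Ioo 0 (z1 g)) : sz g z ∈ Ioo (0 : ℝ) 1 := by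
  have h0 := den_pos hz
  have h1 : (0 : ℝ) < (g : ℝ) + 1 := by positivity
  have h2 := hz.2
  unfold z1 at h2
  rw [lt_div_iff₀ h1] at h2
  unfold sz
  refine ⟨div_pos hz.1 h0, ?_⟩
  rw [div_lt_one h0]; linarith

/-- the logarithmic coefficient -/
noncomputable def ell (α β z : ℝ) : ℝ := α - β / 2 * Real.log z

/-- the four functions on `(0, z1)` -/
noncomputable def yy (α β : ℝ) (g : ℕ) (z : ℝ) : Fin 4 → ℝ :=
  ![2 / Real.pi * KK (sz g z), 2 / Real.pi * EE (sz g z),
    (KK (1 - sz g z) - ell α β z * (2 / Real.pi * KK (sz g z))) / β,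
    ((KK (1 - sz g z) - EE (1 - sz g z)) - ell α β z * (2 / Real.pi * EE (sz g z))) / β]

/-- the four functions, extended to `0` -/
noncomputable def yt (α β : ℝ) (g : ℕ) (z : ℝ) : Fin 4 → ℝ :=
  if 0 < z then yy α β g z else fun i => E (four g i) z

theorem an_sz {g : ℕ} {z : ℝ} (hz : z ∈ Ioo 0 (z1 g)) : AnalyticAt ℝ (sz g) z := by
  unfold sz
  exact analyticAt_id.div (analyticAt_const.sub (analyticAt_const.mul analyticAt_id))
    (den_pos hz).ne'

section

variable {g : ℕ} {z : ℝ} (hz : z ∈ Ioo 0 (z1 g))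

include hz

theorem an_K : AnalyticAt ℝ (fun z => KK (sz g z)) z :=
  (Pool.Agent.TH818.AR.an.1 _ (sz_mem hz).2).comp (an_sz hz)

theorem an_Ee : AnalyticAt ℝ (fun z => EE (sz g z)) z :=
  (Pool.Agent.TH818.AR.an.2 _ (sz_mem hz).2).comp (an_sz hz)

theorem an_K' : AnalyticAt ℝ (fun z => KK (1 - sz g z)) z :=
  (Pool.Agent.TH818.AR.an.1 _ (show 1 - sz g z < 1 by linarith [(sz_mem hz).1])).comp_of_eq
    (analyticAt_const.sub (an_sz hz)) rfl

theorem an_E' : AnalyticAt ℝ (fun z => EE (1 - sz g z)) z :=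
  (Pool.Agent.TH818.AR.an.2 _ (show 1 - sz g z < 1 by linarith [(sz_mem hz).1])).comp_of_eq
    (analyticAt_const.sub (an_sz hz)) rfl

omit hz in
theorem an_ell {α β : ℝ} (h0 : 0 < z) : AnalyticAt ℝ (ell α β) z := by
  unfold ell
  exact analyticAt_const.sub (analyticAt_const.mul (analyticAt_log h0))

theorem an_yy (α β : ℝ) (i : Fin 4) : AnalyticAt ℝ (fun z => yy α β g z i) z := by
  have h1 := an_K hz
  have h2 := an_Ee hz
  have h3 := an_K' hz
  have h4 := an_E' hz
  have h5 := an_ell (α := α) (β := β) hz.1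
  fin_cases i
  · exact analyticAt_const.mul h1
  · exact analyticAt_const.mul h2
  · exact (h3.sub (h5.mul (analyticAt_const.mul h1))).div_const
  · exact ((h3.sub h4).sub (h5.mul (analyticAt_const.mul h2))).div_const

theorem yt_eq (α β : ℝ) : yt α β g z = yy α β g z := by
  unfold yt; rw [if_pos hz.1]

theorem an_yt (α β : ℝ) (i : Fin 4) : AnalyticAt ℝ (fun z => yt α β g z i) z := by
  refine (an_yy hz α β i).congr ?_
  have : Ioi (0 : ℝ) ∈ 𝓝 z := Ioi_mem_nhds hz.1
  filter_upwards [this] with w hw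
  have hw' : 0 < w := hw
  unfold yt; rw [if_pos hw']

end

/-- all the data -/
structure Dat (α β : ℝ) : Prop where
  ne : β ≠ 0
  leg : ∀ t : ℝ, 0 < t → t < 1 →
    KK t * EE (1 - t) + EE t * KK (1 - t) - KK t * KK (1 - t) = Real.pi / 2 * β
  val : ∀ (g : ℕ) (z : ℝ), 0 < z → z < 1 / ((g : ℝ) + 8) → ∀ i, yy α β g z i = E (four g i) z

theorem dat : ∃ α β : ℝ, Dat α β := by
  obtain ⟨α, β, hβ, hleg, h⟩ := values
  refine ⟨α, β, hβ, hleg, fun g z h0 hz i => ?_⟩
  obtain ⟨h1, h2, h3, h4⟩ := h g z h0 hz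
  have hpi := Real.pi_pos
  have e1 : 2 / Real.pi * KK (sz g z) = E (uu g) z := by
    unfold sz; rw [h1]; field_simp
  have e2 : 2 / Real.pi * EE (sz g z) = E (vv g) z := by
    unfold sz; rw [h2]; field_simp
  fin_cases i
  · exact e1
  · exact e2
  · show (KK (1 - sz g z) - ell α β z * (2 / Real.pi * KK (sz g z))) / β = E (ww g) z
    rw [e1]
    unfold sz ell
    rw [h3]; field_simp; ring
  · show ((KK (1 - sz g z) - EE (1 - sz g z)) - ell α β z * (2 / Real.pi * EE (sz g z))) / β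
      = E (xx g) z
    rw [e2]
    unfold sz ell
    rw [h4]; field_simp; ring

variable {α β : ℝ}

theorem yt_small (hD : Dat α β) (g : ℕ) : ∀ᶠ z in 𝓝 (0 : ℝ), ∀ i, yt α β g z i = E (four g i) z := by
  have : Iio (1 / ((g : ℝ) + 8)) ∈ 𝓝 (0 : ℝ) := Iio_mem_nhds (by positivity)
  filter_upwards [this] with z hz i
  unfold yt
  split_ifs with h
  · exact hD.val g z h hz i
  · rfl

theorem an_yt0 (hD : Dat α β) (g : ℕ) (i : Fin 4) : AnalyticAt ℝ (fun z => yt α β g z i) 0 := by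
  refine (an_E (by positivity) (SR_four g i)).congr ?_
  filter_upwards [yt_small hD g] with z hz
  exact (hz i).symm

/-- analytic on `[0, z1)` -/
theorem an_yt' (hD : Dat α β) {g : ℕ} {z : ℝ} (h0 : 0 ≤ z) (h1 : z < z1 g) (i : Fin 4) :
    AnalyticAt ℝ (fun z => yt α β g z i) z := by
  rcases h0.eq_or_lt with h | h
  · rw [← h]; exact an_yt0 hD g i
  · exact an_yt ⟨h, h1⟩ α β i

theorem det_yy (hD : Dat α β) {g : ℕ} {z : ℝ} (hz : z ∈ Ioo 0 (z1 g)) :
    yy α β g z 0 * yy α β g z 3 - yy α β g z 1 * yy α β g z 2 = -1 := by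
  have h := hD.leg _ (sz_mem hz).1 (sz_mem hz).2
  have h1 := hD.ne
  have hpi := Real.pi_pos.ne'
  simp only [yy, Matrix.cons_val]
  field_simp
  field_simp at h
  linear_combination (-Real.pi) * h

/-! ### The singularity at `z1` and the logarithm at `0` -/

/-- the basic unipotent -/
noncomputable def Mb (β lam c : ℝ) : Matrix (Fin 2) (Fin 2) ℝ :=
  !![1 + c * lam, -(lam ^ 2 * c / β); c * β, 1 - c * lam]

/-- the direction of the variation -/
noncomputable def dir (α β : ℝ) (g : ℕ) (z : ℝ) : Fin 4 → ℝ :=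
  ![KK (1 - sz g z), KK (1 - sz g z) - EE (1 - sz g z),
    -(ell α β z * KK (1 - sz g z) / β), -(ell α β z * (KK (1 - sz g z) - EE (1 - sz g z)) / β)]

/-- vanishing on the curve -/
def Van (α β : ℝ) (g : ℕ) (R : ℝ → (Fin 4 → ℝ) → ℝ) : Prop := ∀ z ∈ Ioo 0 (z1 g), R z (yy α β g z) = 0

theorem Ioo_sub (g : ℕ) : Ioo 0 (z1 g) ⊆ Icc 0 (z1 g) := Ioo_subset_Icc_self

/-- local inverse near the end -/
noncomputable def ph1 (g : ℕ) (τ : ℝ) : ℝ := (1 - τ) / (1 + g * (1 - τ))

theorem ph1_an (g : ℕ) : AnalyticAt ℝ (ph1 g) 0 := by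
  unfold ph1
  refine (analyticAt_const.sub analyticAt_id).div (analyticAt_const.add
    (analyticAt_const.mul (analyticAt_const.sub analyticAt_id))) ?_
  have : (0 : ℝ) < 1 + g * (1 - 0) := by simp; positivity
  exact this.ne'

theorem ph1_zero (g : ℕ) : ph1 g 0 = z1 g := by
  unfold ph1 z1; rw [sub_zero, mul_one, add_comm]

theorem ph1_mem (g : ℕ) {τ : ℝ} (hτ : τ ∈ Ioo (0 : ℝ) 1) : ph1 g τ ∈ Ioo 0 (z1 g) ∧
    sz g (ph1 g τ) = 1 - τ := by
  have h1 : 0 < 1 - τ := by linarith [hτ.2]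
  have h2 : (0 : ℝ) ≤ g := by positivity
  have h3 : 0 < 1 + (g : ℝ) * (1 - τ) := by positivity
  unfold ph1 z1 sz
  refine ⟨⟨by positivity, ?_⟩, ?_⟩
  · rw [div_lt_div_iff₀ h3 (by positivity)]
    nlinarith [hτ.1]
  · have h4 : 1 - (g : ℝ) * ((1 - τ) / (1 + g * (1 - τ))) = 1 / (1 + g * (1 - τ)) := by
      field_simp; ring
    rw [h4]; field_simp

theorem ph1_inv {g : ℕ} {z : ℝ} (hz : z ∈ Ioo 0 (z1 g)) : ph1 g (1 - sz g z) = z := by
  have h0 := den_pos hz
  unfold ph1 sz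
  rw [sub_sub_cancel]
  have h1 : 1 + (g : ℝ) * (z / (1 - g * z)) = 1 / (1 - g * z) := by field_simp; ring
  rw [h1, div_div_eq_mul_div, div_one, div_mul_cancel₀ _ h0.ne']

theorem tend1 (g : ℕ) : Tendsto (fun z => 1 - sz g z) (𝓝[<] (z1 g)) (𝓝[>] 0) := by
  have hp := z1_pos g
  have h1 : (0 : ℝ) < (g : ℝ) + 1 := by positivity
  have h0 : 1 - (g : ℝ) * z1 g ≠ 0 := by
    have : 1 - (g : ℝ) * z1 g = 1 / ((g : ℝ) + 1) := by unfold z1; field_simp; ring
    rw [this]; positivity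
  have hc : ContinuousAt (fun z => 1 - sz g z) (z1 g) := by
    unfold sz
    exact continuousAt_const.sub (continuousAt_id.div (continuousAt_const.sub
      (continuousAt_const.mul continuousAt_id)) h0)
  have hv : 1 - sz g (z1 g) = 0 := by
    unfold sz
    have : 1 - (g : ℝ) * z1 g = z1 g := by unfold z1; field_simp; ring
    rw [this, div_self hp.ne', sub_self]
  refine tendsto_nhdsWithin_iff.2 ⟨?_, ?_⟩
  · have := hc.tendsto
    rw [hv] at this
    exact this.mono_left nhdsWithin_le_nhds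
  · have : Ioo 0 (z1 g) ∈ 𝓝[<] (z1 g) := Ioo_mem_nhdsLT hp
    filter_upwards [this] with z hz
    have := (sz_mem hz).2
    show 0 < 1 - sz g z
    linarith

theorem an_Kc : AnalyticAt ℝ KK 0 := Pool.Agent.TH818.AR.an.1 0 (by simp)
theorem an_Ec : AnalyticAt ℝ EE 0 := Pool.Agent.TH818.AR.an.2 0 (by simp)

theorem KK_pos {t : ℝ} (ht : t < 1) : 0 < KK t := Pool.Agent.TH818.AR.pos.1 t ht

/-- Step 1: variation along `dir`. -/
theorem step1 (hD : Dat α β) {g : ℕ} {R : ℝ → (Fin 4 → ℝ) → ℝ} (hR : Cl (Icc 0 (z1 g)) R)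
    (h : Van α β g R) (c : ℝ) :
    ∀ z ∈ Ioo 0 (z1 g), R z (fun i => yy α β g z i + c * dir α β g z i) = 0 := by
  obtain ⟨κ, G, hκ, hG, hsing⟩ := Pool.Agent.TH818.AR.sing
  have hβ := hD.ne
  have hpi := Real.pi_pos
  -- the polynomials in the logarithm
  let ℓ : ℝ → ℝ := fun τ => ell α β (ph1 g τ)
  have hℓ : AnalyticAt ℝ ℓ 0 := by
    refine AnalyticAt.fun_comp ?_ (ph1_an g)
    rw [ph1_zero]
    exact an_ell (z1_pos g)
  have hK0 : KK 0 ≠ 0 := (KK_pos (by norm_num)).ne'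
  let A : Fin 4 → ℝ → ℝ := ![fun _ => 0, fun τ => β / KK τ, fun τ => KK τ / β,
    fun τ => ((KK τ - EE τ) - ℓ τ * (β / KK τ)) / β]
  let Bv : Fin 4 → ℝ → ℝ := ![fun τ => 2 / Real.pi * KK τ, fun τ => 2 / Real.pi * (KK τ - EE τ),
    fun τ => -(2 / Real.pi * (ℓ τ * KK τ / β)), fun τ => -(2 / Real.pi * (ℓ τ * (KK τ - EE τ) / β))]
  have hA : ∀ i, AnalyticAt ℝ (A i) 0 := by
    intro i
    fin_cases i
    · exact analyticAt_const
    · exact analyticAt_const.div an_Kc hK0
    · exact an_Kc.div_const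
    · exact ((an_Kc.sub an_Ec).sub (hℓ.mul (analyticAt_const.div an_Kc hK0))).div_const
  have hBv : ∀ i, AnalyticAt ℝ (Bv i) 0 := by
    intro i
    fin_cases i
    · exact analyticAt_const.mul an_Kc
    · exact analyticAt_const.mul (an_Kc.sub an_Ec)
    · exact (analyticAt_const.mul (hℓ.mul an_Kc).div_const).neg
    · exact (analyticAt_const.mul (hℓ.mul (an_Kc.sub an_Ec)).div_const).neg
  let Y : Fin 4 → ℝ → ℝ[X] := fun i τ => C (A i τ) + C (Bv i τ) * X
  obtain ⟨P, hP, ⟨n, hn⟩, hPe⟩ := hR.poly (φ := ph1 g) (ph1_an g)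
    (by rw [ph1_zero]; exact ⟨(z1_pos g).le, le_rfl⟩) (Y := Y)
    (fun i => (AnP.C (hA i)).add ((AnP.C (hBv i)).mul (AnP.const X)))
    (fun i => ⟨1, fun τ => by
      refine (natDegree_add_le _ _).trans (max_le (by simp) ?_)
      exact (natDegree_C_mul_le _ _).trans natDegree_X_le⟩)
  -- the values
  have hval : ∀ τ ∈ Ioo (0 : ℝ) 1, ∀ Λ c' : ℝ, KK (1 - τ) = KK τ * Λ →
      (fun i => (Y i τ).eval (Λ + c' * (Real.pi / 2)))
        = fun i => yy α β g (ph1 g τ) i + c' * dir α β g (ph1 g τ) i := by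
    intro τ hτ Λ c' hΛ
    have hs := (ph1_mem g hτ).2
    have hKτ : KK τ ≠ 0 := (KK_pos hτ.2).ne'
    have hl := hD.leg τ hτ.1 hτ.2
    have hE : EE (1 - τ) = Real.pi / 2 * β / KK τ + (KK τ - EE τ) * Λ := by
      rw [hΛ] at hl
      field_simp
      field_simp at hl
      linear_combination hl
    ext i
    simp only [Y, eval_add, eval_mul, eval_C, eval_X]
    fin_cases i
    · simp only [A, Bv, yy, dir, Matrix.cons_val, hs, sub_sub_cancel, Fin.zero_eta]
      rw [hΛ]; field_simp; ring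
    · simp only [A, Bv, yy, dir, Matrix.cons_val, hs, sub_sub_cancel, Fin.mk_one]
      rw [hE]; field_simp; ring
    · simp only [A, Bv, yy, dir, Matrix.cons_val, hs, sub_sub_cancel, Fin.reduceFinMk, ℓ]
      rw [hΛ]; field_simp; ring
    · simp only [A, Bv, yy, dir, Matrix.cons_val, hs, sub_sub_cancel, Fin.reduceFinMk, ℓ]
      rw [hE]; field_simp; ring
  have h01 : ∀ᶠ τ in 𝓝[>] (0 : ℝ), τ ∈ Ioo (0 : ℝ) 1 := Ioo_mem_nhdsGT one_pos
  have hP0 : ∀ᶠ τ in 𝓝 (0 : ℝ), P τ = 0 := by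
    refine tr' Pool.Agent.TH818.AR.tr hκ hG hP n hn ?_
    filter_upwards [hsing, h01] with τ h1 h2
    rw [hPe]
    have := hval τ h2 (κ * Real.log τ + G τ) 0 h1
    simp only [zero_mul, add_zero] at this
    rw [this]
    exact h _ (ph1_mem g h2).1
  have hnear : ∀ᶠ τ in 𝓝[>] (0 : ℝ), R (ph1 g τ)
      (fun i => yy α β g (ph1 g τ) i + c * dir α β g (ph1 g τ) i) = 0 := by
    filter_upwards [hsing, h01, nhdsWithin_le_nhds hP0] with τ h1 h2 h3
    rw [← hval τ h2 (κ * Real.log τ + G τ) c h1, ← hPe, h3, eval_zero]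
  refine ident_right (f := fun z => R z (fun i => yy α β g z i + c * dir α β g z i)) ?_
    (z1_pos g) ?_
  · intro z hz
    refine hR.an (Ioo_sub g hz) (y := fun z i => yy α β g z i + c * dir α β g z i) fun i => ?_
    refine (an_yy hz α β i).add (analyticAt_const.mul ?_)
    have h3 := an_K' hz
    have h4 := an_E' hz
    have h5 := an_ell (α := α) (β := β) hz.1
    fin_cases i
    · exact h3
    · exact h3.sub h4
    · exact ((h5.mul h3).div_const).neg
    · exact ((h5.mul (h3.sub h4)).div_const).neg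
  · have := (tend1 g).eventually hnear
    have h2 : Ioo 0 (z1 g) ∈ 𝓝[<] (z1 g) := Ioo_mem_nhdsLT (z1_pos g)
    filter_upwards [this, h2] with z hz hz'
    rw [ph1_inv hz'] at hz
    exact hz

/-- Step 2: the logarithm at `0` replaced by a constant. -/
theorem step2 (hD : Dat α β) {g : ℕ} {R : ℝ → (Fin 4 → ℝ) → ℝ} (hR : Cl (Icc 0 (z1 g)) R)
    (h : Van α β g R) (c lam : ℝ) :
    Van α β g (fun z y => R z (act y (Mb β lam c))) := by
  have hβ := hD.ne
  have h1 := step1 hD hR h c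
  have hE : ∀ i, AnalyticAt ℝ (E (four g i)) 0 := fun i => an_E (by positivity) (SR_four g i)
  let p : Fin 2 → ℝ → ℝ[X] := ![fun z => C (β * E (four g 2) z) + C (E (four g 0) z) * X,
    fun z => C (β * E (four g 3) z) + C (E (four g 1) z) * X]
  let Y : Fin 4 → ℝ → ℝ[X] := ![fun z => C (E (four g 0) z) + C c * p 0 z,
    fun z => C (E (four g 1) z) + C c * p 1 z,
    fun z => C (E (four g 2) z) + C (-(c / β)) * (X * p 0 z),
    fun z => C (E (four g 3) z) + C (-(c / β)) * (X * p 1 z)]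
  have hp : ∀ i, AnP (p i) := by
    intro i
    fin_cases i
    · exact (AnP.C (analyticAt_const.mul (hE 2))).add ((AnP.C (hE 0)).mul (AnP.const X))
    · exact (AnP.C (analyticAt_const.mul (hE 3))).add ((AnP.C (hE 1)).mul (AnP.const X))
  have hpd : ∀ i z, (p i z).natDegree ≤ 1 := by
    intro i z
    fin_cases i
    all_goals
      refine (natDegree_add_le _ _).trans (max_le ((natDegree_C _).le.trans (by norm_num)) ?_)
      exact (natDegree_C_mul_le _ _).trans natDegree_X_le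
  have hY : ∀ i, AnP (Y i) := by
    intro i
    fin_cases i
    · exact (AnP.C (hE 0)).add ((AnP.const _).mul (hp 0))
    · exact (AnP.C (hE 1)).add ((AnP.const _).mul (hp 1))
    · exact (AnP.C (hE 2)).add ((AnP.const _).mul ((AnP.const X).mul (hp 0)))
    · exact (AnP.C (hE 3)).add ((AnP.const _).mul ((AnP.const X).mul (hp 1)))
  have hYd : ∀ i, ∃ n, ∀ z, (Y i z).natDegree ≤ n := by
    intro i
    refine ⟨2, fun z => ?_⟩
    have hX : ∀ j, (X * p j z).natDegree ≤ 2 := fun j =>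
      natDegree_mul_le.trans (by have := hpd j z; have := natDegree_X_le (R := ℝ); omega)
    fin_cases i
    · exact (natDegree_add_le _ _).trans (max_le (by simp)
        ((natDegree_C_mul_le _ _).trans ((hpd 0 z).trans (by norm_num))))
    · exact (natDegree_add_le _ _).trans (max_le (by simp)
        ((natDegree_C_mul_le _ _).trans ((hpd 1 z).trans (by norm_num))))
    · exact (natDegree_add_le _ _).trans (max_le (by simp)
        ((natDegree_C_mul_le _ _).trans (hX 0)))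
    · exact (natDegree_add_le _ _).trans (max_le (by simp)
        ((natDegree_C_mul_le _ _).trans (hX 1)))
  obtain ⟨P, hP, ⟨n, hn⟩, hPe⟩ := hR.poly (φ := fun z => z) analyticAt_id
    (show (0 : ℝ) ∈ Icc 0 (z1 g) from ⟨le_rfl, (z1_pos g).le⟩) hY hYd
  have hYe : ∀ z Λ, (fun i => (Y i z).eval Λ) = act (fun i => E (four g i) z) (Mb β Λ c) := by
    intro z Λ
    ext i
    fin_cases i <;> simp [Y, p, act, Mb] <;> field_simp <;> ring
  have hsmall : ∀ᶠ z in 𝓝[>] (0 : ℝ), z ∈ Ioo 0 (z1 g) ∧ ∀ i, yy α β g z i = E (four g i) z := by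
    have h2 : Ioo (0 : ℝ) (1 / ((g : ℝ) + 8)) ∈ 𝓝[>] (0 : ℝ) := Ioo_mem_nhdsGT (by positivity)
    have h3 : Ioo 0 (z1 g) ∈ 𝓝[>] (0 : ℝ) := Ioo_mem_nhdsGT (z1_pos g)
    filter_upwards [h2, h3] with z hz hz'
    exact ⟨hz', hD.val g z hz.1 hz.2⟩
  have hP0 : ∀ᶠ z in 𝓝 (0 : ℝ), P z = 0 := by
    refine tr' Pool.Agent.TH818.AR.tr (κ := -(β / 2)) (G := fun _ => α)
      (neg_ne_zero.2 (div_ne_zero hβ two_ne_zero)) analyticAt_const hP n hn ?_
    filter_upwards [hsmall] with z hz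
    obtain ⟨hz1, hz2⟩ := hz
    rw [hPe, hYe]
    have h2 := h1 z hz1
    rw [← h2]
    congr 1
    have h3 : -(β / 2) * Real.log z + α = ell α β z := by unfold ell; ring
    rw [h3]
    have e2 := hz2 0
    have e3 := hz2 1
    have e4 := hz2 2
    have e5 := hz2 3
    have k1 : KK (1 - sz g z) = β * E (four g 2) z + ell α β z * E (four g 0) z := by
      rw [← e4, ← e2]; simp only [yy, Matrix.cons_val]; field_simp; ring
    have k2 : KK (1 - sz g z) - EE (1 - sz g z) = β * E (four g 3) z + ell α β z * E (four g 1) z := by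
      rw [← e5, ← e3]; simp only [yy, Matrix.cons_val]; field_simp; ring
    ext i
    fin_cases i
    · simp only [act, Mb, dir, Matrix.cons_val, Matrix.of_apply, Matrix.cons_val', Fin.zero_eta]
      rw [e2, k1]; ring
    · simp only [act, Mb, dir, Matrix.cons_val, Matrix.of_apply, Matrix.cons_val', Fin.mk_one]
      rw [e3, k2]; ring
    · simp only [act, Mb, dir, Matrix.cons_val, Matrix.of_apply, Matrix.cons_val', Fin.reduceFinMk]
      rw [e4, k1]; field_simp; ring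
    · simp only [act, Mb, dir, Matrix.cons_val, Matrix.of_apply, Matrix.cons_val', Fin.reduceFinMk]
      rw [e5, k2]; field_simp; ring
  refine ident_left (f := fun z => R z (act (yy α β g z) (Mb β lam c))) ?_ (z1_pos g) ?_
  · intro z hz
    exact (hR.lin (Mb β lam c)).an (Ioo_sub g hz) (fun i => an_yy hz α β i)
  · filter_upwards [hsmall, nhdsWithin_le_nhds hP0] with z hz hz'
    have h2 : yy α β g z = fun i => E (four g i) z := funext hz.2
    rw [h2, ← hYe, ← hPe, hz', eval_zero]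

/-- stability under a matrix -/
def Stab (α β : ℝ) (g : ℕ) (M : Matrix (Fin 2) (Fin 2) ℝ) : Prop :=
  ∀ R, Cl (Icc 0 (z1 g)) R → Van α β g R → Van α β g (fun z y => R z (act y M))

theorem Stab.mul {g : ℕ} {M N : Matrix (Fin 2) (Fin 2) ℝ} (hM : Stab α β g M) (hN : Stab α β g N) :
    Stab α β g (M * N) := by
  intro R hR h
  have h1 := hM _ (hR.lin N) (hN R hR h)
  intro z hz
  have h2 := h1 z hz
  simp only [act_act] at h2
  exact h2

theorem stab_low (hD : Dat α β) (g : ℕ) (a : ℝ) : Stab α β g !![1, 0; a, 1] := by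
  have h := fun R hR h => step2 (α := α) hD (g := g) (R := R) hR h (a / β) 0
  have e : Mb β 0 (a / β) = !![1, 0; a, 1] := by
    unfold Mb
    have := hD.ne
    ext i j
    fin_cases i <;> fin_cases j <;> simp
    field_simp
  intro R hR hv
  have := h R hR hv
  rwa [e] at this

theorem stab_up (hD : Dat α β) (g : ℕ) (b : ℝ) : Stab α β g !![1, b; 0, 1] := by
  have h1 : Stab α β g (Mb β 1 (-(b * β))) := fun R hR h => step2 hD hR h _ 1
  have h2 := ((stab_low hD g (-β)).mul h1).mul (stab_low hD g β)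
  have hβ := hD.ne
  have e : !![1, 0; -β, 1] * Mb β 1 (-(b * β)) * !![1, 0; β, 1] = !![1, b; 0, 1] := by
    unfold Mb
    ext i j
    fin_cases i <;> fin_cases j <;> simp [Matrix.mul_apply, Fin.sum_univ_two] <;> field_simp <;> ring
  rwa [e] at h2

theorem stab_all (hD : Dat α β) (g : ℕ) {M : Matrix (Fin 2) (Fin 2) ℝ}
    (hM : M 0 0 * M 1 1 - M 0 1 * M 1 0 = 1) : Stab α β g M := by
  have main : ∀ M : Matrix (Fin 2) (Fin 2) ℝ, M 0 0 * M 1 1 - M 0 1 * M 1 0 = 1 → M 1 0 ≠ 0 →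
      Stab α β g M := by
    intro M hM h0
    have h := ((stab_up hD g ((M 0 0 - 1) / M 1 0)).mul (stab_low hD g (M 1 0))).mul
      (stab_up hD g ((M 1 1 - 1) / M 1 0))
    have e : !![1, (M 0 0 - 1) / M 1 0; 0, 1] * !![1, 0; M 1 0, 1] * !![1, (M 1 1 - 1) / M 1 0; 0, 1]
        = M := by
      ext i j
      fin_cases i <;> fin_cases j <;> simp [Matrix.mul_apply, Fin.sum_univ_two] <;> field_simp
      · ring
      · linear_combination hM
      · ring
    rwa [e] at h
  by_cases h0 : M 1 0 = 0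
  · have h1 : M 1 1 ≠ 0 := by
      intro h; rw [h0, h] at hM; simp at hM
    have h2 := main (M * !![1, 0; 1, 1]) (by
      simp [Matrix.mul_apply, Fin.sum_univ_two]; linear_combination hM) (by
      simp [Matrix.mul_apply, Fin.sum_univ_two, h0]; exact h1)
    have h3 := h2.mul (stab_low hD g (-1))
    have e : M * !![1, 0; 1, 1] * !![1, 0; -1, 1] = M := by
      ext i j
      fin_cases i <;> fin_cases j <;> simp [Matrix.mul_apply, Fin.sum_univ_two]
    rwa [e] at h3
  · exact main M hM h0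

/-- the relation holds on the whole surface -/
theorem surface (hD : Dat α β) {g : ℕ} {R : ℝ → (Fin 4 → ℝ) → ℝ} (hR : Cl (Icc 0 (z1 g)) R)
    (h : Van α β g R) : ∀ z ∈ Ioo 0 (z1 g), ∀ y : Fin 4 → ℝ, y 0 * y 3 - y 1 * y 2 = -1 →
      R z y = 0 := by
  intro z hz n hn
  set y := yy α β g z with hy
  have hd : y 0 * y 3 - y 1 * y 2 = -1 := det_yy hD hz
  set M : Matrix (Fin 2) (Fin 2) ℝ := !![-(y 3 * n 0) + y 2 * n 1, -(y 3 * n 2) + y 2 * n 3;
    y 1 * n 0 - y 0 * n 1, y 1 * n 2 - y 0 * n 3] with hM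
  have hdet : M 0 0 * M 1 1 - M 0 1 * M 1 0 = 1 := by
    simp [hM]
    linear_combination (n 0 * n 3 - n 1 * n 2) * hd - hn
  have h1 := stab_all hD g hdet R hR h z hz
  have h2 : act y M = n := by
    ext i
    fin_cases i
    · simp [act, hM]; linear_combination (-(n 0)) * hd
    · simp [act, hM]; linear_combination (-(n 1)) * hd
    · simp [act, hM]; linear_combination (-(n 2)) * hd
    · simp [act, hM]; linear_combination (-(n 3)) * hd
  simp only at h1
  rwa [← hy, h2] at h1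

end Pool.Agent.Y37.GF
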