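import Pool.Agent.Y37.GF.Ode
import Pool.Agent.Y37.GF.PS
import Pool.Agent.TH818.AR.Sing

/-! The Legendre functions near `0` as sums of their power series. -/

set_option autoImplicit false

open PowerSeries Filter Topology Set

namespace Pool.Agent.Y37.GF

open Pool.Agent.Y113

/-! ### Bounds -/

theorem cc_nonneg (n : ℕ) : 0 ≤ cc n := by unfold cc; positivity

theorem cc_le (n : ℕ) : cc n ≤ 1 := by
  have h : ((n.centralBinom : ℚ) / 4 ^ n) ≤ 1 := by
    rw [div_le_one (by positivity)]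
    have h1 : n.centralBinom ≤ 4 ^ n := by
      rw [Nat.centralBinom]
      calc (2 * n).choose n ≤ 2 ^ (2 * n) := Nat.choose_le_two_pow _ _
        _ = 4 ^ n := by rw [pow_mul]; norm_num
    exact_mod_cast h1
  unfold cc
  exact pow_le_one₀ (by positivity) h

theorem qq_bound (n : ℕ) : 0 ≤ qq n ∧ qq n ≤ n := by
  induction n with
  | zero => simp [qq_zero]
  | succ n ih =>
    have h := qq_succ n
    have h1 : (0 : ℚ) < (2 * n + 1) * (n + 1) := by positivity
    have h2 : qq (n + 1) = qq n + 1 / ((2 * n + 1) * (n + 1)) := by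
      field_simp
      linear_combination h
    have h3 : (1 : ℚ) / ((2 * n + 1) * (n + 1)) ≤ 1 := by
      rw [div_le_one h1]
      have : (0 : ℚ) ≤ n := by positivity
      nlinarith
    have h4 : (0 : ℚ) ≤ 1 / ((2 * n + 1) * (n + 1)) := by positivity
    push_cast
    constructor <;> linarith [ih.1, ih.2]

theorem four_pow (n : ℕ) : ((n : ℚ) + 1) ^ 2 ≤ 4 ^ n := by
  induction n with
  | zero => norm_num
  | succ n ih =>
    have h : (4 : ℚ) ^ (n + 1) = 4 * 4 ^ n := by rw [pow_succ]; ring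
    rw [h]
    push_cast
    have : (0 : ℚ) ≤ n := by positivity
    nlinarith

theorem Fs_bound (n : ℕ) : |coeff n Fs| ≤ 8 * 4 ^ n := by
  rw [coeff_Fs, abs_of_nonneg (cc_nonneg n)]
  have h : (1 : ℚ) ≤ 4 ^ n := one_le_pow₀ (by norm_num)
  linarith [cc_le n]

theorem Hs_bound (n : ℕ) : |coeff n Hs| ≤ 8 * 4 ^ n := by
  rw [coeff_Hs, abs_of_nonneg (mul_nonneg (cc_nonneg n) (qq_bound n).1)]
  have h := four_pow n
  have h1 := cc_le n
  have h2 := cc_nonneg n
  have h3 := qq_bound n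
  have h4 : cc n * qq n ≤ 1 * n := mul_le_mul h1 h3.2 h3.1 (by norm_num)
  have : (0 : ℚ) ≤ n := by positivity
  nlinarith

theorem Gs_bound (n : ℕ) : |coeff n Gs| ≤ 8 * 4 ^ n := by
  rcases n with _ | n
  · rw [coeff_zero_Gs, cc_zero]; norm_num
  · rw [coeff_Gs_succ]
    have h := four_pow n
    have h1 := cc_le n
    have h2 := cc_nonneg n
    have h3 := cc_le (n + 1)
    have h4 := cc_nonneg (n + 1)
    have h5 : (0 : ℚ) ≤ n := by positivity
    rw [pow_succ, abs_le]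
    constructor <;> nlinarith

theorem Ks_bound (n : ℕ) : |coeff n Ks| ≤ 8 * 4 ^ n := by
  rcases n with _ | n
  · rw [coeff_zero_Ks, cc_zero, qq_zero]; norm_num
  · rw [coeff_Ks_succ]
    have h := four_pow n
    have h1 := cc_le n
    have h2 := cc_nonneg n
    have h3 := cc_le (n + 1)
    have h4 := cc_nonneg (n + 1)
    have h5 : (0 : ℚ) ≤ n := by positivity
    have h6 := qq_bound n
    have h7 := qq_bound (n + 1)
    push_cast at h7
    have h8 : cc n * qq n ≤ 1 * n := mul_le_mul h1 h6.2 h6.1 (by norm_num)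
    have h9 : cc (n + 1) * qq (n + 1) ≤ 1 * (n + 1) := mul_le_mul h3 h7.2 h7.1 (by norm_num)
    have h10 : 0 ≤ cc n * qq n := mul_nonneg h2 h6.1
    have h11 : 0 ≤ cc (n + 1) * qq (n + 1) := mul_nonneg h4 h7.1
    rw [pow_succ, abs_le]
    constructor <;> nlinarith

theorem SR_of {f : ℚ⟦X⟧} (h : ∀ n, |coeff n f| ≤ 8 * 4 ^ n) : SR (1 / 8) f := by
  refine SR.of_bound (A := 8) (B := 4) (by norm_num) (by norm_num) (by norm_num) fun m => ?_
  have := h m
  have h2 : |((coeff m f : ℚ) : ℝ)| ≤ ((8 * 4 ^ m : ℚ) : ℝ) := by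
    rw [← Rat.cast_abs]; exact_mod_cast this
  push_cast at h2
  exact h2

theorem SR_F : SR (1 / 8) Fs := SR_of Fs_bound
theorem SR_G : SR (1 / 8) Gs := SR_of Gs_bound
theorem SR_H : SR (1 / 8) Hs := SR_of Hs_bound
theorem SR_K : SR (1 / 8) Ks := SR_of Ks_bound

/-! ### Differential equations of the sums -/

theorem E_pmul {r z : ℝ} {f : ℚ⟦X⟧} (P : Polynomial ℚ) (hf : SR r f) (hz : |z| ≤ r) :
    E ((P : ℚ⟦X⟧) * f) z = Polynomial.aeval z P * E f z := by
  rw [E_mul (SR.poly P r) hf hz, E_poly]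

theorem E_der {f : ℚ⟦X⟧} (hf : SR (1 / 8) f) {s : ℝ} (hs : |s| < 1 / 8) (P : Polynomial ℚ) :
    E ((P : ℚ⟦X⟧) * d⁄dX ℚ f) s = Polynomial.aeval s P * E (d⁄dX ℚ f) s := by
  obtain ⟨r, h1, h2⟩ := exists_between hs
  exact E_pmul P (hf.der (lt_of_le_of_lt (abs_nonneg _) h1).le h2) h1.le

theorem oneX : ((1 - Polynomial.X : Polynomial ℚ) : ℚ⟦X⟧) = 1 - X := by
  have h : ∀ P : Polynomial ℚ, (P : ℚ⟦X⟧) = Polynomial.coeToPowerSeries.ringHom P := fun P => rfl
  rw [h, map_sub, map_one, ← h, Polynomial.coe_X]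

theorem twoX : ((2 * Polynomial.X : Polynomial ℚ) : ℚ⟦X⟧) = 2 * X := by
  have h : ∀ P : Polynomial ℚ, (P : ℚ⟦X⟧) = Polynomial.coeToPowerSeries.ringHom P := fun P => rfl
  rw [h, map_mul, map_ofNat, ← h, Polynomial.coe_X]

theorem twoXX : ((2 * Polynomial.X * (1 - Polynomial.X) : Polynomial ℚ) : ℚ⟦X⟧) = 2 * X * (1 - X) := by
  rw [Polynomial.coe_mul, twoX, oneX]

variable {s : ℝ}

theorem small {s : ℝ} (hs : s ∈ Ioo (0 : ℝ) (1 / 8)) : |s| < 1 / 8 := by
  rw [abs_of_pos hs.1]; exact hs.2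

theorem dF (hs : s ∈ Ioo (0 : ℝ) (1 / 8)) :
    HasDerivAt (E Fs) ((E Gs s - (1 - s) * E Fs s) / (2 * s * (1 - s))) s := by
  have h := hasDerivAt_E SR_F (small hs)
  refine h.congr_deriv ?_
  have h1 := congrArg (fun f => E f s) ode_F
  rw [← twoXX, ← oneX, E_der SR_F (small hs), E_sub SR_G ((SR.poly _ _).mul (by norm_num) SR_F) (small hs).le,
    E_pmul _ SR_F (small hs).le] at h1
  simp only [map_mul, map_sub, map_one, map_ofNat, Polynomial.aeval_X] at h1
  have h2 := hs.1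
  have h3 := hs.2
  have h4 : (2 * s * (1 - s)) ≠ 0 := by
    have : 0 < 1 - s := by linarith
    positivity
  rw [eq_div_iff h4]
  linarith

theorem dG (hs : s ∈ Ioo (0 : ℝ) (1 / 8)) :
    HasDerivAt (E Gs) ((E Gs s - E Fs s) / (2 * s)) s := by
  have h := hasDerivAt_E SR_G (small hs)
  refine h.congr_deriv ?_
  have h1 := congrArg (fun f => E f s) ode_G
  rw [← twoX, E_der SR_G (small hs), E_sub SR_G SR_F (small hs).le] at h1
  simp only [map_mul, map_ofNat, Polynomial.aeval_X] at h1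
  have h2 := hs.1
  rw [eq_div_iff (by positivity)]
  linarith

theorem dH (hs : s ∈ Ioo (0 : ℝ) (1 / 8)) :
    HasDerivAt (E Hs) ((E Ks s - (1 - s) * E Hs s - (1 - s) * E Fs s) / (2 * s * (1 - s))) s := by
  have h := hasDerivAt_E SR_H (small hs)
  refine h.congr_deriv ?_
  have h1 := congrArg (fun f => E f s) ode_H
  rw [← twoXX, ← oneX, E_der SR_H (small hs),
    E_sub (SR_K.sub (by norm_num) ((SR.poly _ _).mul (by norm_num) SR_H))
      ((SR.poly _ _).mul (by norm_num) SR_F) (small hs).le,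
    E_sub SR_K ((SR.poly _ _).mul (by norm_num) SR_H) (small hs).le,
    E_pmul _ SR_F (small hs).le, E_pmul _ SR_H (small hs).le] at h1
  simp only [map_mul, map_sub, map_one, map_ofNat, Polynomial.aeval_X] at h1
  have h2 := hs.1
  have h3 := hs.2
  have h4 : (2 * s * (1 - s)) ≠ 0 := by
    have : 0 < 1 - s := by linarith
    positivity
  rw [eq_div_iff h4]
  linarith

theorem dK (hs : s ∈ Ioo (0 : ℝ) (1 / 8)) :
    HasDerivAt (E Ks) ((E Ks s - E Hs s - E Gs s) / (2 * s)) s := by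
  have h := hasDerivAt_E SR_K (small hs)
  refine h.congr_deriv ?_
  have h1 := congrArg (fun f => E f s) ode_K
  rw [← twoX, E_der SR_K (small hs), E_sub (SR_K.sub (by norm_num) SR_H) SR_G (small hs).le,
    E_sub SR_K SR_H (small hs).le] at h1
  simp only [map_mul, map_ofNat, Polynomial.aeval_X] at h1
  have h2 := hs.1
  rw [eq_div_iff (by positivity)]
  linarith

theorem legE (hs : |s| ≤ 1 / 8) : E Fs s * E Ks s - E Gs s * E Hs s = 1 := by
  have h1 := congrArg (fun f => E f s) leg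
  rwa [E_sub (SR_F.mul (by norm_num) SR_K) (SR_G.mul (by norm_num) SR_H) hs, E_mul SR_F SR_K hs,
    E_mul SR_G SR_H hs, E_one] at h1

theorem E_zero (f : ℚ⟦X⟧) : E f 0 = ((coeff 0 f : ℚ) : ℝ) := by
  unfold E
  rw [tsum_eq_single 0]
  · simp
  · intro m hm; simp [hm]

theorem EF_ge (hs : s ∈ Ioo (0 : ℝ) (1 / 8)) : 1 ≤ E Fs s := by
  have h := SR_F.summ (small hs).le
  have h1 := h.le_tsum 0 (fun m _ => by
    rw [coeff_Fs]
    have : (0 : ℝ) ≤ ((cc m : ℚ) : ℝ) := by exact_mod_cast cc_nonneg m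
    have := hs.1.le
    positivity)
  rw [coeff_Fs, cc_zero] at h1
  simpa [E] using h1

theorem cont_E {f : ℚ⟦X⟧} (hf : SR (1 / 8) f) (hs : |s| < 1 / 8) : ContinuousAt (E f) s :=
  (hasDerivAt_E hf hs).continuousAt

/-! ### Identification with the elliptic integrals -/

theorem KK_eq' (x : ℝ) : KK x = Pool.Agent.TH818.AR.KK x := rfl
theorem EE_eq' (x : ℝ) : EE x = Pool.Agent.TH818.AR.EE x := rfl

theorem dKK (h0 : 0 < s) (h1 : s < 1) : HasDerivAt KK ((EE s - (1 - s) * KK s) / (2 * s * (1 - s))) s :=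
  (Pool.Agent.TH818.AR.ode s h1 h0.ne').1

theorem dEE (h0 : 0 < s) (h1 : s < 1) : HasDerivAt EE ((EE s - KK s) / (2 * s)) s :=
  (Pool.Agent.TH818.AR.ode s h1 h0.ne').2

theorem KK_zero : KK 0 = Real.pi / 2 := by simp [KK]
theorem EE_zero : EE 0 = Real.pi / 2 := by simp [EE]

theorem cont_KK (h : s < 1) : ContinuousAt KK s := (Pool.Agent.TH818.AR.an.1 s h).continuousAt
theorem cont_EE (h : s < 1) : ContinuousAt EE s := (Pool.Agent.TH818.AR.an.2 s h).continuousAt

/-- constancy on `[0, 1/8)` -/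
theorem const0 {D : ℝ → ℝ} (hc : ∀ s, 0 ≤ s → s < 1 / 8 → ContinuousAt D s)
    (hd : ∀ s ∈ Ioo (0 : ℝ) (1 / 8), HasDerivAt D 0 s) (hs : s ∈ Ioo (0 : ℝ) (1 / 8)) : D s = D 0 := by
  obtain ⟨c, hc1, hc2⟩ := exists_hasDerivAt_eq_slope D (fun _ => 0) hs.1
    (fun x hx => (hc x hx.1 (lt_of_le_of_lt hx.2 hs.2)).continuousWithinAt)
    (fun x hx => hd x ⟨hx.1, hx.2.trans hs.2⟩)
  have h1 : s - 0 ≠ 0 := by have := hs.1; simp; linarith
  rw [eq_div_iff h1] at hc2
  linarith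

/-- constancy on `(0, 1/8)` -/
theorem const1 {D : ℝ → ℝ} (hd : ∀ s ∈ Ioo (0 : ℝ) (1 / 8), HasDerivAt D 0 s)
    (hs : s ∈ Ioo (0 : ℝ) (1 / 8)) : D s = D (1 / 16) := by
  refine isOpen_Ioo.is_const_of_deriv_eq_zero (s := Ioo (0 : ℝ) (1 / 8)) isPreconnected_Ioo
    ?_ ?_ hs (by norm_num)
  · intro s hs
    exact (hd s hs).differentiableAt.differentiableWithinAt
  · intro s hs
    exact (hd s hs).deriv

theorem KG (hs : s ∈ Ioo (0 : ℝ) (1 / 8)) : KK s * E Gs s = EE s * E Fs s := by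
  have h := const0 (D := fun s => KK s * E Gs s - EE s * E Fs s) (s := s) (fun s h0 h1 => by
      have h2 : |s| < 1 / 8 := by rwa [abs_of_nonneg h0]
      have h3 : s < 1 := by linarith
      exact ((cont_KK h3).mul (cont_E SR_G h2)).sub ((cont_EE h3).mul (cont_E SR_F h2)))
    (fun s hs => by
      have h0 := hs.1
      have h1 : s < 1 := by linarith [hs.2]
      refine (((dKK h0 h1).mul (dG hs)).sub ((dEE h0 h1).mul (dF hs))).congr_deriv ?_
      have h2 : 1 - s ≠ 0 := by linarith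
      field_simp
      ring) hs
  simp only [KK_zero, EE_zero, E_zero, coeff_zero_Gs, coeff_Fs, sub_self] at h
  linarith

theorem KK_F (hs : s ∈ Ioo (0 : ℝ) (1 / 8)) : KK s = Real.pi / 2 * E Fs s := by
  have h := const0 (D := fun s => KK s / E Fs s) (s := s) (fun s h0 h1 => by
      have h2 : |s| < 1 / 8 := by rwa [abs_of_nonneg h0]
      have h3 : s < 1 := by linarith
      refine (cont_KK h3).div (cont_E SR_F h2) ?_
      rcases h0.eq_or_lt with h4 | h4
      · rw [← h4, E_zero, coeff_Fs, cc_zero]; norm_num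
      · have := EF_ge ⟨h4, h1⟩; linarith)
    (fun s hs => by
      have h0 := hs.1
      have h1 : s < 1 := by linarith [hs.2]
      have h3 := EF_ge hs
      have h4 : E Fs s ≠ 0 := by linarith
      refine ((dKK h0 h1).div (dF hs) h4).congr_deriv ?_
      have h2 : 1 - s ≠ 0 := by linarith
      have h5 := KG hs
      field_simp
      linear_combination -h5) hs
  have h3 := EF_ge hs
  have h4 : E Fs s ≠ 0 := by linarith
  simp only [KK_zero, E_zero, coeff_Fs, cc_zero, Rat.cast_one, div_one] at h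
  rw [div_eq_iff h4] at h
  exact h

theorem EE_G (hs : s ∈ Ioo (0 : ℝ) (1 / 8)) : EE s = Real.pi / 2 * E Gs s := by
  have h3 := EF_ge hs
  have h4 : E Fs s ≠ 0 := by linarith
  have h5 := KG hs
  rw [KK_F hs] at h5
  have h6 : (EE s - Real.pi / 2 * E Gs s) * E Fs s = 0 := by linear_combination -h5
  rcases mul_eq_zero.1 h6 with h | h
  · linarith
  · exact absurd h h4

/-- the second solutions -/
noncomputable def Ph (s : ℝ) : ℝ := -(1 / 2) * (E Fs s * Real.log s) - E Hs s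
noncomputable def Ps (s : ℝ) : ℝ := -(1 / 2) * (E Gs s * Real.log s) - E Ks s

theorem dPh (hs : s ∈ Ioo (0 : ℝ) (1 / 8)) :
    HasDerivAt Ph ((Ps s - (1 - s) * Ph s) / (2 * s * (1 - s))) s := by
  have h0 := hs.1
  have h := (((dF hs).mul (Real.hasDerivAt_log h0.ne')).const_mul (-(1 / 2))).sub (dH hs)
  refine h.congr_deriv ?_
  have h2 : 1 - s ≠ 0 := by linarith [hs.2]
  unfold Ps Ph
  field_simp
  ring

theorem dPs (hs : s ∈ Ioo (0 : ℝ) (1 / 8)) :
    HasDerivAt Ps ((Ps s - Ph s) / (2 * s)) s := by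
  have h0 := hs.1
  have h := (((dG hs).mul (Real.hasDerivAt_log h0.ne')).const_mul (-(1 / 2))).sub (dK hs)
  refine h.congr_deriv ?_
  unfold Ps Ph
  field_simp
  ring

theorem dy (h0 : 0 < s) (h1 : s < 1) : HasDerivAt (fun s => KK (1 - s))
    (((KK (1 - s) - EE (1 - s)) - (1 - s) * KK (1 - s)) / (2 * s * (1 - s))) s := by
  refine (Pool.Agent.TH818.AR.SingAux.KK_deriv1 Pool.Agent.TH818.AR.ode s h0 h1).congr_deriv ?_
  rw [← KK_eq', ← EE_eq']
  have h2 : 1 - s ≠ 0 := by linarith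
  field_simp
  ring

theorem dz (h0 : 0 < s) (h1 : s < 1) : HasDerivAt (fun s => KK (1 - s) - EE (1 - s))
    (((KK (1 - s) - EE (1 - s)) - KK (1 - s)) / (2 * s)) s := by
  have h3 := Pool.Agent.TH818.AR.SingAux.EE_deriv1 Pool.Agent.TH818.AR.ode s h0 h1
  refine ((dy h0 h1).sub h3).congr_deriv ?_
  rw [← KK_eq', ← EE_eq']
  have h2 : 1 - s ≠ 0 := by linarith
  field_simp
  ring

theorem second : ∃ α β : ℝ, β ≠ 0 ∧ (∀ t : ℝ, 0 < t → t < 1 →
    KK t * EE (1 - t) + EE t * KK (1 - t) - KK t * KK (1 - t) = Real.pi / 2 * β) ∧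
    ∀ s ∈ Ioo (0 : ℝ) (1 / 8),
    KK (1 - s) = β * Ph s + α * E Fs s ∧ KK (1 - s) - EE (1 - s) = β * Ps s + α * E Gs s := by
  obtain ⟨W, hW, hleg⟩ := Pool.Agent.TH818.AR.leg
  have hpi := Real.pi_pos
  have hβ : ∀ s ∈ Ioo (0 : ℝ) (1 / 8),
      KK (1 - s) * E Gs s - (KK (1 - s) - EE (1 - s)) * E Fs s = 2 / Real.pi * W := by
    intro s hs
    have h1 := hleg s hs.1 (by linarith [hs.2])
    rw [← KK_eq', ← EE_eq', ← EE_eq', ← KK_eq', KK_F hs, EE_G hs] at h1
    rw [← h1]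
    field_simp
    ring
  have hα : ∀ s ∈ Ioo (0 : ℝ) (1 / 8), (KK (1 - s) - EE (1 - s)) * Ph s - KK (1 - s) * Ps s
      = (KK (1 - 1 / 16) - EE (1 - 1 / 16)) * Ph (1 / 16) - KK (1 - 1 / 16) * Ps (1 / 16) := by
    intro s hs
    refine const1 (D := fun s => (KK (1 - s) - EE (1 - s)) * Ph s - KK (1 - s) * Ps s) (fun s hs => ?_) hs
    have h0 := hs.1
    have h1 : s < 1 := by linarith [hs.2]
    refine (((dz h0 h1).mul (dPh hs)).sub ((dy h0 h1).mul (dPs hs))).congr_deriv ?_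
    have h2 : 1 - s ≠ 0 := by linarith
    field_simp
    ring
  refine ⟨(KK (1 - 1 / 16) - EE (1 - 1 / 16)) * Ph (1 / 16) - KK (1 - 1 / 16) * Ps (1 / 16),
    2 / Real.pi * W, by positivity, fun t h0 h1 => ?_, fun s hs => ?_⟩
  · rw [KK_eq', EE_eq', EE_eq', KK_eq', hleg t h0 h1]
    field_simp
  have hw : E Gs s * Ph s - Ps s * E Fs s = 1 := by
    have := legE (small hs).le
    unfold Ph Ps
    linear_combination this
  constructor
  · rw [← hβ s hs, ← hα s hs]
    linear_combination (-KK (1 - s)) * hw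
  · rw [← hβ s hs, ← hα s hs]
    linear_combination (-(KK (1 - s) - EE (1 - s))) * hw

end Pool.Agent.Y37.GF
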