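import Pool.Agent.Y113.Defs

/-! The differential equations of the Legendre family (task `T_ode` of project GF). -/

set_option autoImplicit false

open PowerSeries

namespace Pool.Agent.Y37.GF

open Pool.Agent.Y113

/-- coefficients of `Fs` -/
noncomputable def cc (n : ℕ) : ℚ := ((n.centralBinom : ℚ) / 4 ^ n) ^ 2

/-- the harmonic factor -/
noncomputable def qq (n : ℕ) : ℚ := 2 * (harmonic (2 * n) - harmonic n)

theorem cc_succ (n : ℕ) : 4 * ((n : ℚ) + 1) ^ 2 * cc (n + 1) = (2 * n + 1) ^ 2 * cc n := by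
  have h := Nat.succ_mul_centralBinom_succ n
  have h' : ((n : ℚ) + 1) * ((n + 1).centralBinom : ℚ) = 2 * (2 * n + 1) * (n.centralBinom : ℚ) := by
    exact_mod_cast h
  have h2 : ((n : ℚ) + 1) * (((n + 1).centralBinom : ℚ) / 4 ^ (n + 1))
      = (2 * n + 1) / 2 * ((n.centralBinom : ℚ) / 4 ^ n) := by
    rw [pow_succ]
    field_simp
    linear_combination 2 * h'
  unfold cc
  have h3 : (((n : ℚ) + 1) * (((n + 1).centralBinom : ℚ) / 4 ^ (n + 1))) ^ 2
      = ((2 * n + 1) / 2 * ((n.centralBinom : ℚ) / 4 ^ n)) ^ 2 := by rw [h2]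
  linear_combination 4 * h3

theorem qq_succ (n : ℕ) : ((2 : ℚ) * n + 1) * (n + 1) * (qq (n + 1) - qq n) = 1 := by
  unfold qq
  rw [show 2 * (n + 1) = 2 * n + 1 + 1 by ring, harmonic_succ (2 * n + 1), harmonic_succ (2 * n),
    harmonic_succ n]
  have h1 : ((2 : ℚ) * n + 1) ≠ 0 := by positivity
  have h2 : ((n : ℚ) + 1) ≠ 0 := by positivity
  push_cast
  field_simp
  ring

theorem coeff_Fs (n : ℕ) : coeff n Fs = cc n := by simp [Fs, cc]

theorem coeff_Hs (n : ℕ) : coeff n Hs = cc n * qq n := by simp [Hs, cc, qq]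

/-- coefficients of `2 X (1 - X) f' + (1 - X) f` -/
theorem coeff_comp (f : ℚ⟦X⟧) (n : ℕ) :
    coeff (n + 1) (2 * X * (1 - X) * (d⁄dX ℚ f) + (1 - X) * f)
      = (2 * n + 3) * coeff (n + 1) f - (2 * n + 1) * coeff n f := by
  have h : 2 * X * (1 - X) * (d⁄dX ℚ f) + (1 - X) * f
      = (2 : ℚ) • (X * (d⁄dX ℚ f)) - (2 : ℚ) • (X * (X * (d⁄dX ℚ f))) + f - X * f := by
    simp only [Algebra.smul_def, map_ofNat]
    ring
  rw [h]
  simp only [map_add, map_sub, map_smul, coeff_succ_X_mul, smul_eq_mul, coeff_derivative]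
  rcases n with _ | k
  · simp; ring
  · simp only [coeff_succ_X_mul, coeff_derivative]
    push_cast
    ring

theorem coeff_comp_zero (f : ℚ⟦X⟧) :
    coeff 0 (2 * X * (1 - X) * (d⁄dX ℚ f) + (1 - X) * f) = coeff 0 f := by
  simp [coeff_zero_eq_constantCoeff]

theorem coeff_Gs_succ (n : ℕ) :
    coeff (n + 1) Gs = (2 * n + 3) * cc (n + 1) - (2 * n + 1) * cc n := by
  unfold Gs
  rw [coeff_comp, coeff_Fs, coeff_Fs]

theorem coeff_Ks_succ (n : ℕ) :
    coeff (n + 1) Ks = (2 * n + 3) * (cc (n + 1) * qq (n + 1)) - (2 * n + 1) * (cc n * qq n)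
      + cc (n + 1) - cc n := by
  unfold Ks
  have h : (1 - X) * Fs = Fs - X * Fs := by ring
  rw [map_add, coeff_comp, coeff_Hs, coeff_Hs, h, map_sub, coeff_succ_X_mul, coeff_Fs, coeff_Fs]
  ring

theorem coeff_zero_Gs : coeff 0 Gs = cc 0 := by
  unfold Gs
  rw [coeff_comp_zero, coeff_Fs]

theorem coeff_zero_Ks : coeff 0 Ks = cc 0 * qq 0 + cc 0 := by
  unfold Ks
  have h : (1 - X) * Fs = Fs - X * Fs := by ring
  rw [map_add, coeff_comp_zero, coeff_Hs, h, map_sub, coeff_Fs, coeff_zero_X_mul, sub_zero]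

theorem cc_zero : cc 0 = 1 := by simp [cc]

theorem qq_zero : qq 0 = 0 := by simp [qq]

/-- `2 X G' = G - F` -/
theorem ode_G : 2 * X * (d⁄dX ℚ Gs) = Gs - Fs := by
  ext n
  have h : 2 * X * (d⁄dX ℚ Gs) = (2 : ℚ) • (X * (d⁄dX ℚ Gs)) := by
    simp only [Algebra.smul_def, map_ofNat]; ring
  rw [h]
  rcases n with _ | n
  · simp only [map_smul, coeff_zero_X_mul, map_sub, coeff_zero_Gs, coeff_Fs]; simp
  · simp only [map_smul, coeff_succ_X_mul, map_sub, coeff_derivative, coeff_Gs_succ, coeff_Fs,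
      smul_eq_mul]
    have h1 := cc_succ n
    linear_combination h1

/-- `2 X K' = K - H - G` -/
theorem ode_K : 2 * X * (d⁄dX ℚ Ks) = Ks - Hs - Gs := by
  ext n
  have h : 2 * X * (d⁄dX ℚ Ks) = (2 : ℚ) • (X * (d⁄dX ℚ Ks)) := by
    simp only [Algebra.smul_def, map_ofNat]; ring
  rw [h]
  rcases n with _ | n
  · simp only [map_smul, coeff_zero_X_mul, map_sub, coeff_zero_Gs, coeff_zero_Ks, coeff_Hs]
    simp [cc_zero, qq_zero]
  · simp only [map_smul, coeff_succ_X_mul, map_sub, coeff_derivative, coeff_Gs_succ, coeff_Ks_succ,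
      coeff_Hs, smul_eq_mul]
    have h1 := cc_succ n
    have h2 := qq_succ n
    have h3 : ((2 : ℚ) * n + 1) ≠ 0 := by positivity
    have h4 : ((n : ℚ) + 1) ≠ 0 := by positivity
    have h5 : qq (n + 1) = qq n + 1 / ((2 * n + 1) * (n + 1)) := by
      field_simp
      linear_combination h2
    have h6 : cc n = 4 * ((n : ℚ) + 1) ^ 2 * cc (n + 1) / (2 * n + 1) ^ 2 := by
      rw [eq_div_iff (by positivity)]
      linear_combination -h1
    rw [h5, h6]
    field_simp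
    ring

/-- `2 X (1 - X) F' = G - (1 - X) F` -/
theorem ode_F : 2 * X * (1 - X) * (d⁄dX ℚ Fs) = Gs - (1 - X) * Fs := by
  unfold Gs; ring

/-- `2 X (1 - X) H' = K - (1 - X) H - (1 - X) F` -/
theorem ode_H : 2 * X * (1 - X) * (d⁄dX ℚ Hs) = Ks - (1 - X) * Hs - (1 - X) * Fs := by
  unfold Ks; ring

theorem leg : Fs * Ks - Gs * Hs = 1 := by
  have h : d⁄dX ℚ (Fs * Ks - Gs * Hs) = d⁄dX ℚ 1 := by
    have h1 : 2 * X * (1 - X) * d⁄dX ℚ (Fs * Ks - Gs * Hs) = 0 := by
      simp only [map_sub, Derivation.leibniz, smul_eq_mul]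
      linear_combination Ks * ode_F + (1 - X) * Fs * ode_K - (1 - X) * Hs * ode_G - Gs * ode_H
    have h2 : (2 * X * (1 - X) : ℚ⟦X⟧) ≠ 0 := by
      refine mul_ne_zero (mul_ne_zero ?_ X_ne_zero) ?_
      · intro h
        have := congrArg constantCoeff h
        rw [map_ofNat, map_zero] at this
        norm_num at this
      · intro h
        have := congrArg constantCoeff h
        simp at this
    rw [(mul_eq_zero.1 h1).resolve_left h2]
    simp
  refine derivative.ext h ?_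
  simp only [map_sub, map_mul, ← coeff_zero_eq_constantCoeff_apply, coeff_Fs, coeff_zero_Ks,
    coeff_zero_Gs, coeff_Hs, cc_zero, qq_zero]
  simp

/-! ### The substitution -/

theorem hasSubst_sh (g : ℕ) : HasSubst (sh g) :=
  HasSubst.of_constantCoeff_zero' (by
    rw [← coeff_zero_eq_constantCoeff_apply]; simp [sh])

/-- the substitution as an algebra homomorphism -/
noncomputable def ph (g : ℕ) : ℚ⟦X⟧ →ₐ[ℚ] ℚ⟦X⟧ := substAlgHom (hasSubst_sh g)

theorem ph_eq (g : ℕ) (f : ℚ⟦X⟧) : ph g f = f.subst (sh g) := by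
  unfold ph; rw [coe_substAlgHom]

theorem ph_X (g : ℕ) : ph g X = sh g := by
  rw [ph_eq, subst_X (hasSubst_sh g)]

theorem sh_mul (g : ℕ) : (1 - (g : ℚ⟦X⟧) * X) * sh g = X := by
  ext n
  have h : (1 - (g : ℚ⟦X⟧) * X) * sh g = sh g - (g : ℚ) • (X * sh g) := by
    simp only [Algebra.smul_def, map_natCast]; ring
  rw [h, map_sub, map_smul]
  rcases n with _ | n
  · simp [sh]
  · rw [coeff_succ_X_mul, coeff_X]
    rcases n with _ | n
    · simp [sh]
    · simp only [sh, coeff_mk]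
      simp [pow_succ]; ring

theorem sh_der (g : ℕ) : (1 - (g : ℚ⟦X⟧) * X) ^ 2 * d⁄dX ℚ (sh g) = 1 := by
  have h := congrArg (d⁄dX ℚ) (sh_mul g)
  have hg : d⁄dX ℚ (g : ℚ⟦X⟧) = 0 := by
    rw [← map_natCast (C : ℚ →+* ℚ⟦X⟧), derivative_C]
  simp only [Derivation.leibniz, smul_eq_mul, map_sub, derivative_X, hg, Derivation.map_one_eq_zero,
    mul_zero, add_zero, mul_one, zero_sub] at h
  have h2 := sh_mul g
  linear_combination (1 - (g : ℚ⟦X⟧) * X) * h + (g : ℚ⟦X⟧) * h2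

theorem ph_der (g : ℕ) (f : ℚ⟦X⟧) : d⁄dX ℚ (ph g f) = ph g (d⁄dX ℚ f) * d⁄dX ℚ (sh g) := by
  rw [ph_eq, ph_eq, derivative_subst (hasSubst_sh g)]

theorem lg_der (g : ℕ) : (1 - (g : ℚ⟦X⟧) * X) * d⁄dX ℚ (lg g) = - (g : ℚ⟦X⟧) := by
  ext n
  have h : (1 - (g : ℚ⟦X⟧) * X) * d⁄dX ℚ (lg g) = d⁄dX ℚ (lg g) - (g : ℚ) • (X * d⁄dX ℚ (lg g)) := by
    simp only [Algebra.smul_def, map_natCast]; ring
  have hc : ∀ m, coeff m (d⁄dX ℚ (lg g)) = - (g : ℚ) ^ (m + 1) := by
    intro m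
    rw [coeff_derivative]
    simp only [lg, coeff_mk]
    have : ((m : ℚ) + 1) ≠ 0 := by positivity
    push_cast
    field_simp
  have hgC : (g : ℚ⟦X⟧) = C (g : ℚ) := by rw [map_natCast]
  rw [h, map_sub, map_smul, hc]
  rcases n with _ | n
  · rw [hgC, map_neg, coeff_zero_X_mul]; simp
  · rw [coeff_succ_X_mul, hc, hgC, map_neg, coeff_C]
    simp [pow_succ]; ring

theorem ps_TT (g : ℕ) : ps (TT g)
    = 2 * X * (1 - (g : ℚ⟦X⟧) * X) * (1 - ((g : ℚ⟦X⟧) + 1) * X) := by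
  have h : ∀ P : Polynomial ℤ, ps P = Polynomial.coeToPowerSeries.ringHom
      (Polynomial.mapRingHom (Int.castRingHom ℚ) P) := fun P => rfl
  rw [h, TT]
  simp only [map_mul, map_sub, map_one, map_add, map_ofNat, map_natCast, Polynomial.coe_mapRingHom,
    Polynomial.map_X, Polynomial.coeToPowerSeries.ringHom_apply, Polynomial.coe_X]

theorem t_ode : T_ode := by
  intro g
  have hS : ph g X = sh g := ph_X g
  have h1 := sh_mul g
  have h2 := sh_der g
  have hl := lg_der g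
  have eF := congrArg (ph g) ode_F
  have eG := congrArg (ph g) ode_G
  have eH := congrArg (ph g) ode_H
  have eK := congrArg (ph g) ode_K
  have eL := congrArg (ph g) leg
  simp only [map_mul, map_sub, map_one, map_ofNat, hS] at eF eG eH eK eL
  have dF := ph_der g Fs
  have dG := ph_der g Gs
  have dH := ph_der g Hs
  have dK := ph_der g Ks
  unfold ww xx uu vv
  rw [← ph_eq, ← ph_eq, ← ph_eq, ← ph_eq, ps_TT]
  set F := ph g Fs with hF
  set G := ph g Gs with hG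
  set H := ph g Hs with hH
  set K := ph g Ks with hK
  set F' := ph g (d⁄dX ℚ Fs) with hF'
  set G' := ph g (d⁄dX ℚ Gs) with hG'
  set H' := ph g (d⁄dX ℚ Hs) with hH'
  set K' := ph g (d⁄dX ℚ Ks) with hK'
  set S := sh g with hSS
  set S' := d⁄dX ℚ S with hS'
  set γ : ℚ⟦X⟧ := (g : ℚ⟦X⟧) with hγ
  set L := lg g with hL
  set L' := d⁄dX ℚ L with hL'
  have hX : (X : ℚ⟦X⟧) = (1 - γ * X) * S := h1.symm
  have hE : 1 - (γ + 1) * X = (1 - γ * X) * (1 - S) := by linear_combination h1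
  have half : (C (1 / 2 : ℚ) : ℚ⟦X⟧) * 2 = 1 := by
    rw [show (2 : ℚ⟦X⟧) = C (2 : ℚ) by rw [map_ofNat], ← map_mul]; norm_num
  set c2 := (C (1 / 2 : ℚ) : ℚ⟦X⟧) with hc2
  have dc : d⁄dX ℚ c2 = 0 := derivative_C
  -- the basic equation for derivatives
  have aF : 2 * X * (1 - γ * X) * (1 - (γ + 1) * X) * d⁄dX ℚ F
      = (1 - γ * X) * G - (1 - (γ + 1) * X) * F := by
    rw [hE, dF]
    linear_combination (-2 * (1 - γ * X) * (1 - γ * X) * (1 - S) * F' * S') * h1
      + (1 - γ * X) * eF + (1 - γ * X) * (2 * S * (1 - S) * F') * h2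
  have aG : 2 * X * (1 - γ * X) * (1 - (γ + 1) * X) * d⁄dX ℚ G
      = (1 - (γ + 1) * X) * (G - F) := by
    rw [hE, dG]
    linear_combination (-2 * (1 - γ * X) * (1 - γ * X) * (1 - S) * G' * S') * h1
      + (1 - γ * X) * (1 - S) * eG + (1 - γ * X) * (1 - S) * (2 * S * G') * h2
  have aH : 2 * X * (1 - γ * X) * (1 - (γ + 1) * X) * d⁄dX ℚ H
      = (1 - γ * X) * K - (1 - (γ + 1) * X) * H - (1 - (γ + 1) * X) * F := by
    rw [hE, dH]
    linear_combination (-2 * (1 - γ * X) * (1 - γ * X) * (1 - S) * H' * S') * h1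
      + (1 - γ * X) * eH + (1 - γ * X) * (2 * S * (1 - S) * H') * h2
  have aK : 2 * X * (1 - γ * X) * (1 - (γ + 1) * X) * d⁄dX ℚ K
      = (1 - (γ + 1) * X) * (K - H - G) := by
    rw [hE, dK]
    linear_combination (-2 * (1 - γ * X) * (1 - γ * X) * (1 - S) * K' * S') * h1
      + (1 - γ * X) * (1 - S) * eK + (1 - γ * X) * (1 - S) * (2 * S * K') * h2
  refine ⟨?_, ?_, ?_, ?_, ?_⟩
  · linear_combination -eL
  · linear_combination aF
  · linear_combination aG
  · simp only [map_sub, Derivation.leibniz, smul_eq_mul, dc, mul_zero, add_zero]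
    rw [← hL']
    linear_combination c2 * L * aF - aH
      + c2 * F * (2 * X * (1 - (γ + 1) * X)) * hl
      - F * X * γ * (1 - (γ + 1) * X) * half
  · simp only [map_sub, Derivation.leibniz, smul_eq_mul, dc, mul_zero, add_zero]
    rw [← hL']
    linear_combination c2 * L * aG - aK
      + c2 * G * (2 * X * (1 - (γ + 1) * X)) * hl
      - G * X * γ * (1 - (γ + 1) * X) * half

end Pool.Agent.Y37.GF
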